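import Pool.Agent.QC.Ode.Cell

/-!
# The inverse of an analytic family with a simple one dimensional degeneration

`mu` analytic at `z0` with values in `V →L V`, `ker mu(z0) = ℂ v0`, `mu'(z0) v0` not in the range of
`mu(z0)`: then `mu(z)⁻¹ = S(z) / (z - z0)`, `S` analytic, `S(z0) = lam ⊗ v0`. For `N = B mu⁻¹`
with `B(z0) v0 = g v0` this gives `HasPole N z0 e s`, `s = g lam(v0)`.
-/

set_option autoImplicit false

open Set Metric
open scoped Topology

namespace Pool.Agent.QC.Ode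

theorem analyticAt_dslope {F : Type*} [NormedAddCommGroup F] [NormedSpace ℂ F] {f : ℂ → F}
    {z0 : ℂ} (hf : AnalyticAt ℂ f z0) : AnalyticAt ℂ (dslope f z0) z0 := by
  obtain ⟨p, hp⟩ := hf
  exact ⟨_, hp.has_fpower_series_dslope_fslope⟩

variable {V : Type*} [NormedAddCommGroup V] [NormedSpace ℂ V] [FiniteDimensional ℂ V]

/-- The inverse has a simple pole of rank one. -/
theorem simple_inv {mu : ℂ → V →L[ℂ] V} {z0 : ℂ} (hmu : AnalyticAt ℂ mu z0) {v0 : V}
    (hv0 : v0 ≠ 0) (hk0 : mu z0 v0 = 0) (hk : ∀ v, mu z0 v = 0 → ∃ t : ℂ, v = t • v0)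
    (ht : ∀ v, mu z0 v + deriv mu z0 v0 ≠ 0) :
    ∃ (S : ℂ → V →L[ℂ] V) (lam : V →L[ℂ] ℂ), AnalyticAt ℂ S z0 ∧
      S z0 = lam.smulRight v0 ∧ (∀ v, lam (mu z0 v) = 0) ∧ lam (deriv mu z0 v0) = 1 ∧
      ∀ᶠ z in 𝓝 z0, mu z * S z = (z - z0) • 1 ∧ S z * mu z = (z - z0) • 1 := by
  have : CompleteSpace V := FiniteDimensional.complete ℂ V
  obtain ⟨φ, hφ⟩ : ∃ φ : V →L[ℂ] ℂ, φ v0 = 1 := SeparatingDual.exists_eq_one hv0
  set π : V →L[ℂ] V := φ.smulRight v0 with hπ
  have hπv : ∀ v, π v = φ v • v0 := fun v => rfl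
  have hππ : π * π = π := by
    ext v
    show π (π v) = π v
    rw [hπv, hπv, map_smul, hφ, smul_eq_mul, mul_one]
  have hμπ : mu z0 * π = 0 := by
    ext v
    show mu z0 (π v) = 0
    rw [hπv, map_smul, hk0, smul_zero]
  have h1 : (1 - π) * π = 0 := by rw [sub_mul, one_mul, hππ, sub_self]
  have h2 : π * (1 - π) = 0 := by rw [mul_sub, mul_one, hππ, sub_self]
  have h3 : (1 - π) * (1 - π) = 1 - π := by rw [mul_sub, mul_one, h1, sub_zero]
  set ν : ℂ → V →L[ℂ] V := fun z => dslope mu z0 z * π + mu z * (1 - π) with hν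
  set δ : ℂ → V →L[ℂ] V := fun z => (1 - π) + (z - z0) • π with hδ
  set δ' : ℂ → V →L[ℂ] V := fun z => (z - z0) • (1 - π) + π with hδ'
  have hνa : AnalyticAt ℂ ν z0 :=
    ((analyticAt_dslope hmu).mul analyticAt_const).add (hmu.mul analyticAt_const)
  have hδ'a : AnalyticAt ℂ δ' z0 := by
    have h4 : AnalyticAt ℂ (fun z : ℂ => z - z0) z0 := analyticAt_id.sub analyticAt_const
    exact (h4.smul analyticAt_const).add analyticAt_const
  have hμ : ∀ z, mu z = ν z * δ z := by
    intro z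
    have h4 : (z - z0) • dslope mu z0 z = mu z - mu z0 := sub_smul_dslope mu z0 z
    have h5 : ν z * δ z = ((z - z0) • dslope mu z0 z) * π + mu z * (1 - π) := by
      simp only [hν, hδ, add_mul, mul_add, mul_assoc, mul_smul_comm, hππ, h1, h2, h3,
        mul_zero, add_zero, zero_add, smul_mul_assoc]
      rw [add_comm]
    rw [h5, h4, sub_mul, hμπ, sub_zero, ← mul_add, add_sub_cancel, mul_one]
  have hδδ : ∀ z, δ z * δ' z = (z - z0) • 1 := by
    intro z
    simp only [hδ, hδ', add_mul, mul_add, mul_smul_comm, smul_mul_assoc, h1, h2, h3, hππ,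
      smul_zero, add_zero, zero_add]
    rw [← smul_add, sub_add_cancel]
  have hδδ' : ∀ z, δ' z * δ z = (z - z0) • 1 := by
    intro z
    simp only [hδ, hδ', add_mul, mul_add, mul_smul_comm, smul_mul_assoc, h1, h2, h3, hππ,
      smul_zero, add_zero, zero_add]
    rw [← smul_add, sub_add_cancel]
  have hν0 : ν z0 = deriv mu z0 * π + mu z0 * (1 - π) := by simp only [hν, dslope_same]
  have hν0v : ∀ v, ν z0 v = φ v • deriv mu z0 v0 + mu z0 v := by
    intro v
    have h4 : ν z0 v = deriv mu z0 (π v) + mu z0 (v - π v) := by rw [hν0]; rfl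
    rw [h4, hπv, map_smul, map_sub, map_smul, hk0, smul_zero, sub_zero]
  have hinj : Function.Injective (ν z0) := by
    rw [injective_iff_map_eq_zero]
    intro v hv
    rw [hν0v] at hv
    have hφv : φ v = 0 := by
      by_contra hne
      refine ht ((φ v)⁻¹ • v) ?_
      have h4 := congrArg (fun x => (φ v)⁻¹ • x) hv
      simp only [smul_add, smul_smul, smul_zero] at h4
      rw [inv_mul_cancel₀ hne, one_smul] at h4
      rw [map_smul, add_comm]; exact h4
    rw [hφv, zero_smul, zero_add] at hv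
    obtain ⟨t, ht'⟩ := hk v hv
    rw [ht', map_smul, hφ, smul_eq_mul, mul_one] at hφv
    rw [ht', hφv, zero_smul]
  have hunit : IsUnit (ν z0) := by
    rw [ContinuousLinearMap.isUnit_iff_bijective]
    exact ⟨hinj, (LinearMap.injective_iff_surjective (f := (ν z0 : V →ₗ[ℂ] V))).mp hinj⟩
  have hinva : AnalyticAt ℂ (fun z => Ring.inverse (ν z)) z0 := by
    obtain ⟨u, hu⟩ := hunit
    have h4 : AnalyticAt ℂ Ring.inverse (ν z0) := by rw [← hu]; exact analyticAt_inverse u
    exact h4.comp hνa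
  have hev : ∀ᶠ z in 𝓝 z0, IsUnit (ν z) := by
    obtain ⟨u, hu⟩ := hunit
    have h4 : {x : V →L[ℂ] V | IsUnit x} ∈ 𝓝 (ν z0) := by rw [← hu]; exact Units.nhds u
    exact hνa.continuousAt h4
  refine ⟨fun z => δ' z * Ring.inverse (ν z), φ.comp (Ring.inverse (ν z0)),
    hδ'a.mul hinva, ?_, ?_, ?_, ?_⟩
  · ext v
    have h4 : δ' z0 = π := by simp [hδ']
    show (δ' z0) (Ring.inverse (ν z0) v) = _
    rw [h4]; rfl
  · intro v
    have h4 : mu z0 v = ν z0 (v - φ v • v0) := by
      rw [hν0v, map_sub, map_smul, hφ, map_sub, map_smul, hk0]; simp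
    have h5 : Ring.inverse (ν z0) (ν z0 (v - φ v • v0)) = v - φ v • v0 := by
      have := congrArg (fun f : V →L[ℂ] V => f (v - φ v • v0)) (Ring.inverse_mul_cancel _ hunit)
      exact this
    show φ (Ring.inverse (ν z0) (mu z0 v)) = 0
    rw [h4, h5, map_sub, map_smul, hφ]; simp
  · have h4 : deriv mu z0 v0 = ν z0 v0 := by rw [hν0v, hφ, hk0]; simp
    have h5 : Ring.inverse (ν z0) (ν z0 v0) = v0 := by
      have := congrArg (fun f : V →L[ℂ] V => f v0) (Ring.inverse_mul_cancel _ hunit)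
      exact this
    show φ (Ring.inverse (ν z0) (deriv mu z0 v0)) = 1
    rw [h4, h5, hφ]
  · filter_upwards [hev] with z hz
    constructor
    · rw [hμ z]
      calc ν z * δ z * (δ' z * Ring.inverse (ν z)) = ν z * (δ z * δ' z) * Ring.inverse (ν z) := by
            simp only [mul_assoc]
        _ = (z - z0) • 1 := by
            rw [hδδ, mul_smul_comm, mul_one, smul_mul_assoc, Ring.mul_inverse_cancel _ hz]
    · rw [hμ z]
      calc δ' z * Ring.inverse (ν z) * (ν z * δ z) =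
            δ' z * (Ring.inverse (ν z) * ν z) * δ z := by simp only [mul_assoc]
        _ = (z - z0) • 1 := by rw [Ring.inverse_mul_cancel _ hz, mul_one, hδδ']

omit [FiniteDimensional ℂ V] in
/-- The pole of `B mu⁻¹`. -/
theorem hasPole_of_simple {mu B : ℂ → V →L[ℂ] V} {z0 : ℂ} (hB : AnalyticAt ℂ B z0)
    {S : ℂ → V →L[ℂ] V} {lam : V →L[ℂ] ℂ} (hS : AnalyticAt ℂ S z0) {v0 : V}
    (hS0 : S z0 = lam.smulRight v0)
    (hinv : ∀ᶠ z in 𝓝 z0, mu z * S z = (z - z0) • 1 ∧ S z * mu z = (z - z0) • 1)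
    {g : ℂ} (hB0 : B z0 v0 = g • v0) (hs : ∀ k : ℤ, (k : ℂ) ≠ g * lam v0) :
    HasPole (fun z => B z * Ring.inverse (mu z)) z0 ((1 / lam v0) • lam.smulRight v0)
      (g * lam v0) := by
  have hl : lam v0 ≠ 0 := fun h => hs 0 (by rw [h]; simp)
  refine ⟨?_, hs, dslope (fun z => B z * S z) z0, analyticAt_dslope (hB.mul hS), ?_⟩
  · ext v
    show (1 / lam v0) • lam ((1 / lam v0) • lam v • v0) • v0 = (1 / lam v0) • lam v • v0
    rw [map_smul, map_smul, smul_eq_mul, smul_eq_mul]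
    congr 2
    field_simp
  · rw [eventually_nhdsWithin_iff]
    filter_upwards [hinv] with z hz hne
    have hne' : z - z0 ≠ 0 := sub_ne_zero.mpr hne
    have h1 : Ring.inverse (mu z) = (z - z0)⁻¹ • S z := by
      have h2 : mu z * ((z - z0)⁻¹ • S z) = 1 := by
        rw [mul_smul_comm, hz.1, smul_smul, inv_mul_cancel₀ hne', one_smul]
      have h3 : ((z - z0)⁻¹ • S z) * mu z = 1 := by
        rw [smul_mul_assoc, hz.2, smul_smul, inv_mul_cancel₀ hne', one_smul]
      exact Ring.inverse_unit (⟨mu z, (z - z0)⁻¹ • S z, h2, h3⟩ : (V →L[ℂ] V)ˣ)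
    have h2 : (z - z0) • dslope (fun z => B z * S z) z0 z = B z * S z - B z0 * S z0 :=
      sub_smul_dslope (fun z => B z * S z) z0 z
    have h3 : B z * S z = B z0 * S z0 + (z - z0) • dslope (fun z => B z * S z) z0 z := by
      rw [h2]; abel
    have h4 : B z0 * S z0 = g • lam.smulRight v0 := by
      rw [hS0]
      ext v
      show B z0 (lam v • v0) = g • lam v • v0
      rw [map_smul, hB0, smul_comm]
    show B z * Ring.inverse (mu z) = _
    rw [h1, mul_smul_comm, h3, smul_add, smul_smul, inv_mul_cancel₀ hne', one_smul, h4, smul_smul,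
      smul_smul]
    congr 2
    field_simp

end Pool.Agent.QC.Ode
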