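import Pool.Agent.QC.Ode.Vec

/-!
# Holomorphic flat connections on open subsets of complex normed spaces
-/

set_option autoImplicit false

open Set Metric
open scoped Topology

namespace Pool.Agent.QC.Ode

variable {P A : Type*} [NormedAddCommGroup P] [NormedSpace ℂ P] [NormedRing A] [NormedAlgebra ℂ A]

/-- Restriction of scalars as a real linear map. -/
noncomputable def resL (P A : Type*) [NormedAddCommGroup P] [NormedSpace ℂ P] [NormedRing A]
    [NormedAlgebra ℂ A] : (P →L[ℂ] A) →L[ℝ] (P →L[ℝ] A) :=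
  ContinuousLinearMap.restrictScalarsL ℂ P A ℝ ℝ

@[simp] theorem resL_apply (f : P →L[ℂ] A) (x : P) : resL P A f x = f x := rfl

/-- A holomorphic flat connection. -/
noncomputable def cplxConn (X : Set P) (hX : IsOpen X) (W : P → P →L[ℂ] A)
    (hW : ContDiffOn ℂ 1 W X)
    (flat : ∀ p ∈ X, ∀ x y, fderiv ℂ W p x y - fderiv ℂ W p y x = W p x * W p y - W p y * W p x) :
    FlatConn P A where
  X := X
  isOpen := hX
  w := fun p => resL P A (W p)
  w' := fun p => (resL P A).comp ((fderiv ℂ W p).restrictScalars ℝ)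
  hw := by
    intro p hp
    have h1 : DifferentiableAt ℂ W p :=
      (hW.differentiableOn one_ne_zero).differentiableAt (hX.mem_nhds hp)
    exact (resL P A).hasFDerivAt.comp p (h1.hasFDerivAt.restrictScalars ℝ)
  cont' := by
    have h1 : ContinuousOn (fderiv ℂ W) X := hW.continuousOn_fderiv_of_isOpen hX le_rfl
    have h2 : Continuous fun f : P →L[ℂ] P →L[ℂ] A => f.restrictScalars ℝ :=
      (ContinuousLinearMap.restrictScalarsL ℂ P (P →L[ℂ] A) ℝ ℝ).continuous
    have h3 : Continuous fun f : P →L[ℝ] P →L[ℂ] A => (resL P A).comp f :=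
      (ContinuousLinearMap.compL ℝ P (P →L[ℂ] A) (P →L[ℝ] A) (resL P A)).continuous
    exact (h3.comp h2).comp_continuousOn h1
  flat := flat

variable {X : Set P} {hX : IsOpen X} {W : P → P →L[ℂ] A} {hW : ContDiffOn ℂ 1 W X}
    {flat : ∀ p ∈ X, ∀ x y, fderiv ℂ W p x y - fderiv ℂ W p y x = W p x * W p y - W p y * W p x}

theorem cplxConn_X : (cplxConn X hX W hW flat).X = X := rfl

theorem cplxConn_w (p x : P) : (cplxConn X hX W hW flat).w p x = W p x := rfl

theorem cplxConn_hasFDerivAt [CompleteSpace A] {p q : P}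
    (h : q ∈ (cplxConn X hX W hW flat).star p) :
    HasFDerivAt (𝕜 := ℂ) (fun q => (cplxConn X hX W hW flat).tr p q)
      (((ContinuousLinearMap.mul ℂ A).flip ((cplxConn X hX W hW flat).tr p q)).comp (W q)) q := by
  have h1 := (cplxConn X hX W hW flat).hasFDerivAt_tr' h
  refine hasFDerivAt_of_restrictScalars ℝ h1 ?_
  ext
  rfl

end Pool.Agent.QC.Ode
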