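import Pool.Agent.QC.Ode.Vec

/-!
# Extension over a simple pole and the cell lemma

`HasPole N z0 e s`: near `z0` the coefficient is `(s / (z - z0)) e + analytic`, `e` idempotent,
`s` not an integer. `HasPole.ext`: a solution on a punctured ball extends holomorphically over the
centre. `HasPole.slit`: structure of the solutions on a preconnected open subset with a branch of
`(z - z0)^s`; it extends over the centre iff `e c = 0`. `cell`: trivial transport around `z0` iff
there is a single valued solution.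
-/

set_option autoImplicit false

open Set Metric
open scoped Topology

namespace Pool.Agent.QC.Ode

variable {E : Type*} [NormedAddCommGroup E] [NormedSpace ℂ E]

/-- The coefficient `N` has a simple pole at `z0` with residue `s e`, `e` idempotent, `s` not an
integer. -/
structure HasPole (N : ℂ → E →L[ℂ] E) (z0 : ℂ) (e : E →L[ℂ] E) (s : ℂ) : Prop where
  idem : e * e = e
  nint : ∀ k : ℤ, (k : ℂ) ≠ s
  reg : ∃ M : ℂ → E →L[ℂ] E, AnalyticAt ℂ M z0 ∧ ∀ᶠ z in 𝓝[≠] z0, N z = (s / (z - z0)) • e + M z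

theorem isSol_congr_coeff {N N' : ℂ → E →L[ℂ] E} {G : Set ℂ} (h : EqOn N N' G) {y : ℂ → E} :
    IsSol N G y ↔ IsSol N' G y :=
  forall₂_congr fun z hz => by rw [h hz]

variable [CompleteSpace E]

/-- The local structure at a simple pole. -/
theorem HasPole.struct {N : ℂ → E →L[ℂ] E} {z0 : ℂ} {e : E →L[ℂ] E} {s : ℂ}
    (h : HasPole N z0 e s) :
    ∃ ρ : ℝ, 0 < ρ ∧ ∃ U : ℂ → E →L[ℂ] E, U z0 = 1 ∧ DifferentiableOn ℂ U (ball z0 ρ) ∧
      (∀ z ∈ ball z0 ρ, Function.Injective (U z)) ∧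
      (∀ (G : Set ℂ) (b : ℂ → ℂ), IsOpen G → IsPreconnected G → G ⊆ ball z0 ρ → z0 ∉ G →
        (∀ z ∈ G, HasDerivAt b (s / (z - z0) * b z) z) → (∀ z ∈ G, b z ≠ 0) →
        ∀ y : ℂ → E, IsSol N G y ↔ ∃ c : E, ∀ z ∈ G, y z = U z ((1 - e) c + b z • e c)) ∧
      (∀ r : ℝ, 0 < r → r ≤ ρ → ∀ y : ℂ → E, IsSol N (ball z0 r \ {z0}) y ↔
          ∃ c : E, e c = 0 ∧ ∀ z ∈ ball z0 r, z ≠ z0 → y z = U z c) := by
  obtain ⟨M, hM, hN⟩ := h.reg
  obtain ⟨ρ, hρ, U, hU0, hUd, hUi, h1, h2⟩ := loc_struct hM h.idem h.nint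
  rw [eventually_nhdsWithin_iff] at hN
  obtain ⟨δ, hδ, hδN⟩ := Metric.eventually_nhds_iff_ball.mp hN
  have hmin : min ρ δ ≤ ρ := min_le_left _ _
  refine ⟨min ρ δ, lt_min hρ hδ, U, hU0, hUd.mono (ball_subset_ball hmin),
    fun z hz => hUi z (ball_subset_ball hmin hz), ?_, ?_⟩
  · intro G b hG hGc hGρ hz0 hb hb0 y
    rw [← h1 G b hG hGc (hGρ.trans (ball_subset_ball hmin)) hz0 hb hb0 y]
    refine isSol_congr_coeff fun z hz => ?_
    exact hδN z (ball_subset_ball (min_le_right _ _) (hGρ hz)) (fun h0 => hz0 (h0 ▸ hz))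
  · intro r hr hrρ y
    rw [← h2 r hr (hrρ.trans hmin) y]
    refine isSol_congr_coeff fun z hz => ?_
    exact hδN z (ball_subset_ball (hrρ.trans (min_le_right _ _)) hz.1) hz.2

/-- A solution on a punctured neighbourhood extends holomorphically over the centre. -/
theorem HasPole.ext {N : ℂ → E →L[ℂ] E} {z0 : ℂ} {e : E →L[ℂ] E} {s : ℂ}
    (h : HasPole N z0 e s) {S : Set ℂ} (hS : IsOpen S) (hz0 : z0 ∈ S) {y : ℂ → E}
    (hy : IsSol N (S \ {z0}) y) :
    ∃ y' : ℂ → E, EqOn y' y (S \ {z0}) ∧ IsSol N (S \ {z0}) y' ∧ DifferentiableAt ℂ y' z0 ∧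
      e (y' z0) = 0 := by
  obtain ⟨ρ, hρ, U, hU0, hUd, hUi, h1, h2⟩ := h.struct
  obtain ⟨r, hr, hrS⟩ := Metric.isOpen_iff.mp hS z0 hz0
  have hr' : 0 < min r ρ := lt_min hr hρ
  obtain ⟨c, hc0, hc⟩ := (h2 (min r ρ) hr' (min_le_right _ _) y).mp
    (hy.mono fun z hz => ⟨hrS (ball_subset_ball (min_le_left _ _) hz.1), hz.2⟩)
  classical
  refine ⟨Function.update y z0 c, fun z hz => Function.update_of_ne hz.2 _ _, ?_, ?_, ?_⟩
  · exact hy.congr (hS.sdiff isClosed_singleton) (fun z hz => Function.update_of_ne hz.2 _ _)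
  · have h3 : DifferentiableAt ℂ (fun z => U z c) z0 :=
      ((hUd.differentiableAt (ball_mem_nhds z0 hρ)).clm_apply (differentiableAt_const c))
    refine h3.congr_of_eventuallyEq ?_
    filter_upwards [ball_mem_nhds z0 hr'] with z hz
    by_cases hzz : z = z0
    · rw [hzz, Function.update_self, hU0]; rfl
    · rw [Function.update_of_ne hzz, hc z hz hzz]
  · rw [Function.update_self]; exact hc0

/-- Four open half planes through `z0`. -/
theorem half_convex (z0 : ℂ) : Convex ℝ {z : ℂ | z0.im < z.im} ∧ Convex ℝ {z : ℂ | z.im < z0.im} ∧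
    Convex ℝ {z : ℂ | z0.re < z.re} ∧ Convex ℝ {z : ℂ | z.re < z0.re} :=
  ⟨convex_halfSpace_im_gt _, convex_halfSpace_im_lt _, convex_halfSpace_re_gt _,
    convex_halfSpace_re_lt _⟩

/-- The cell lemma: transport around `z0` through the four quadrants is trivial on `v` iff `v` is
the value of a single valued solution. -/
theorem cell {X : Set ℂ} {hX : IsOpen X} {N : ℂ → E →L[ℂ] E} {hN : DifferentiableOn ℂ N X}
    {S : Set ℂ} (hS : IsOpen S) (hSc : Convex ℝ S) {z0 : ℂ} (hSX : S \ {z0} ⊆ X)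
    {p1 p2 p3 p4 : ℂ} (m1 : p1 ∈ S) (m2 : p2 ∈ S) (m3 : p3 ∈ S) (m4 : p4 ∈ S)
    (a1 : z0.re < p1.re) (b1 : z0.im < p1.im) (a2 : p2.re < z0.re) (b2 : z0.im < p2.im)
    (a3 : p3.re < z0.re) (b3 : p3.im < z0.im) (a4 : z0.re < p4.re) (b4 : p4.im < z0.im) (v : E) :
    ((holConn X hX N hN).tr p4 p1) ((holConn X hX N hN).tr p3 p4
      ((holConn X hX N hN).tr p2 p3 ((holConn X hX N hN).tr p1 p2 v))) = v ↔
    ∃ y : ℂ → E, IsSol N (S \ {z0}) y ∧ y p1 = v := by
  set C := holConn X hX N hN with hC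
  set SU := S ∩ {z : ℂ | z0.im < z.im} with hSU
  set SD := S ∩ {z : ℂ | z.im < z0.im} with hSD
  set SR := S ∩ {z : ℂ | z0.re < z.re} with hSR
  set SL := S ∩ {z : ℂ | z.re < z0.re} with hSL
  obtain ⟨cU, cD, cR, cL⟩ := half_convex z0
  have kU : Convex ℝ SU := hSc.inter cU
  have kD : Convex ℝ SD := hSc.inter cD
  have kR : Convex ℝ SR := hSc.inter cR
  have kL : Convex ℝ SL := hSc.inter cL
  have oU : IsOpen SU := hS.inter (isOpen_lt continuous_const Complex.continuous_im)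
  have oD : IsOpen SD := hS.inter (isOpen_lt Complex.continuous_im continuous_const)
  have oR : IsOpen SR := hS.inter (isOpen_lt continuous_const Complex.continuous_re)
  have oL : IsOpen SL := hS.inter (isOpen_lt Complex.continuous_re continuous_const)
  have sU : SU ⊆ S \ {z0} := fun z hz => ⟨hz.1, fun h => by
    have h2 : z0.im < z.im := hz.2
    rw [mem_singleton_iff.mp h] at h2; exact lt_irrefl _ h2⟩
  have sD : SD ⊆ S \ {z0} := fun z hz => ⟨hz.1, fun h => by
    have h2 : z.im < z0.im := hz.2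
    rw [mem_singleton_iff.mp h] at h2; exact lt_irrefl _ h2⟩
  have sR : SR ⊆ S \ {z0} := fun z hz => ⟨hz.1, fun h => by
    have h2 : z0.re < z.re := hz.2
    rw [mem_singleton_iff.mp h] at h2; exact lt_irrefl _ h2⟩
  have sL : SL ⊆ S \ {z0} := fun z hz => ⟨hz.1, fun h => by
    have h2 : z.re < z0.re := hz.2
    rw [mem_singleton_iff.mp h] at h2; exact lt_irrefl _ h2⟩
  constructor
  · intro hv
    -- the four solutions
    set yU : ℂ → E := fun z => C.tr p1 z v with hyU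
    set yL : ℂ → E := fun z => C.tr p2 z (C.tr p1 p2 v) with hyL
    set yD : ℂ → E := fun z => C.tr p3 z (C.tr p2 p3 (C.tr p1 p2 v)) with hyD
    set yR : ℂ → E := fun z => C.tr p4 z (C.tr p3 p4 (C.tr p2 p3 (C.tr p1 p2 v))) with hyR
    have solU : IsSol N SU yU := tr_isSol (fun z hz =>
      (kU.segment_subset ⟨m1, b1⟩ hz).trans (sU.trans hSX)) v
    have solL : IsSol N SL yL := tr_isSol (fun z hz =>
      (kL.segment_subset ⟨m2, a2⟩ hz).trans (sL.trans hSX)) _
    have solD : IsSol N SD yD := tr_isSol (fun z hz =>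
      (kD.segment_subset ⟨m3, b3⟩ hz).trans (sD.trans hSX)) _
    have solR : IsSol N SR yR := tr_isSol (fun z hz =>
      (kR.segment_subset ⟨m4, a4⟩ hz).trans (sR.trans hSX)) _
    have hself : ∀ p, p ∈ S \ {z0} → ∀ x : E, C.tr p p x = x := fun p hp x => by
      rw [C.tr_self p (hSX hp)]; rfl
    have hNS : ∀ {T : Set ℂ}, T ⊆ S \ {z0} → DifferentiableOn ℂ N T :=
      fun hT => hN.mono (hT.trans hSX)
    have eUL : EqOn yU yL (SU ∩ SL) :=
      (solU.mono inter_subset_left).unique (oU.inter oL) (kU.inter kL).isPreconnected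
        (hNS (inter_subset_left.trans sU)) (solL.mono inter_subset_right) (p := p2)
        ⟨⟨m2, b2⟩, m2, a2⟩ (by rw [hyL]; exact (hself p2 (sU ⟨m2, b2⟩) _).symm)
    have eLD : EqOn yL yD (SL ∩ SD) :=
      (solL.mono inter_subset_left).unique (oL.inter oD) (kL.inter kD).isPreconnected
        (hNS (inter_subset_left.trans sL)) (solD.mono inter_subset_right) (p := p3)
        ⟨⟨m3, a3⟩, m3, b3⟩ (by rw [hyD]; exact (hself p3 (sL ⟨m3, a3⟩) _).symm)
    have eDR : EqOn yD yR (SD ∩ SR) :=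
      (solD.mono inter_subset_left).unique (oD.inter oR) (kD.inter kR).isPreconnected
        (hNS (inter_subset_left.trans sD)) (solR.mono inter_subset_right) (p := p4)
        ⟨⟨m4, b4⟩, m4, a4⟩ (by rw [hyR]; exact (hself p4 (sD ⟨m4, b4⟩) _).symm)
    have eRU : EqOn yR yU (SR ∩ SU) :=
      (solR.mono inter_subset_left).unique (oR.inter oU) (kR.inter kU).isPreconnected
        (hNS (inter_subset_left.trans sR)) (solU.mono inter_subset_right) (p := p1)
        ⟨⟨m1, a1⟩, m1, b1⟩ (by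
          show C.tr p4 p1 (C.tr p3 p4 (C.tr p2 p3 (C.tr p1 p2 v))) = C.tr p1 p1 v
          rw [hv, hself p1 (sU ⟨m1, b1⟩)])
    classical
    set g : ℂ → E := fun z => if z0.im < z.im then yU z else if z.im < z0.im then yD z else
      if z.re < z0.re then yL z else yR z with hg
    have gU : EqOn g yU SU := fun z hz => by
      have c1 : z0.im < z.im := hz.2
      simp only [hg]; rw [if_pos c1]
    have gD : EqOn g yD SD := fun z hz => by
      have c1 : z.im < z0.im := hz.2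
      simp only [hg]; rw [if_neg (not_lt.mpr (le_of_lt c1)), if_pos c1]
    have gL : EqOn g yL SL := fun z hz => by
      simp only [hg]
      split_ifs with c1 c2 c3
      · exact eUL ⟨⟨hz.1, c1⟩, hz⟩
      · exact (eLD ⟨hz, hz.1, c2⟩).symm
      · rfl
      · exact absurd hz.2 c3
    have gR : EqOn g yR SR := fun z hz => by
      simp only [hg]
      split_ifs with c1 c2 c3
      · exact (eRU ⟨hz, hz.1, c1⟩).symm
      · exact eDR ⟨⟨hz.1, c2⟩, hz⟩
      · have c4 : z0.re < z.re := hz.2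
        exact absurd c4 (not_lt.mpr (le_of_lt c3))
      · rfl
    refine ⟨g, fun z hz => ?_, ?_⟩
    · rcases lt_trichotomy z.im z0.im with h1 | h1 | h1
      · exact (solD.congr oD gD) z ⟨hz.1, h1⟩
      · rcases lt_trichotomy z.re z0.re with h2 | h2 | h2
        · exact (solL.congr oL gL) z ⟨hz.1, h2⟩
        · exact absurd (Complex.ext h2 h1) hz.2
        · exact (solR.congr oR gR) z ⟨hz.1, h2⟩
      · exact (solU.congr oU gU) z ⟨hz.1, h1⟩
    · rw [gU ⟨m1, b1⟩]; exact hself p1 (sU ⟨m1, b1⟩) v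
  · rintro ⟨y, hy, rfl⟩
    have t12 : y p2 = C.tr p1 p2 (y p1) := hy.tr_eq hSX
      ((kU.segment_subset ⟨m1, b1⟩ ⟨m2, b2⟩).trans sU)
    have t23 : y p3 = C.tr p2 p3 (y p2) := hy.tr_eq hSX
      ((kL.segment_subset ⟨m2, a2⟩ ⟨m3, a3⟩).trans sL)
    have t34 : y p4 = C.tr p3 p4 (y p3) := hy.tr_eq hSX
      ((kD.segment_subset ⟨m3, b3⟩ ⟨m4, b4⟩).trans sD)
    have t41 : y p1 = C.tr p4 p1 (y p4) := hy.tr_eq hSX
      ((kR.segment_subset ⟨m4, a4⟩ ⟨m1, a1⟩).trans sR)
    rw [← t12, ← t23, ← t34, ← t41]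

end Pool.Agent.QC.Ode
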