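import Pool.Agent.QC.Ode.Lin

/-!
# Flat connections: transport along straight segments is a flat section

`FlatConn P A`: a `C^1` flat connection on an open set `X` of a real normed space `P` with values
in a Banach algebra `A`. `C.tr p q` is the transport along the straight segment from `p` to `q`.
Main result: `FlatConn.hasFDerivAt_tr`, the map `q ↦ tr p q` is a flat section on the open set of
all `q` whose segment from `p` is contained in `X`.
-/

set_option autoImplicit false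

open Set Metric
open scoped Topology

namespace Pool.Agent.QC.Ode

/-- Gronwall on `[0,1]` with zero initial value. -/
theorem gron {A : Type*} [NormedAddCommGroup A] [NormedSpace ℝ A] {f f' : ℝ → A} {K ε : ℝ}
    (hK : 0 < K) (hε : 0 ≤ ε) (hf : ∀ t ∈ Icc (0 : ℝ) 1, HasDerivAt f (f' t) t) (h0 : f 0 = 0)
    (hb : ∀ t ∈ Icc (0 : ℝ) 1, ‖f' t‖ ≤ K * ‖f t‖ + ε) {t : ℝ} (ht : t ∈ Icc (0 : ℝ) 1) :
    ‖f t‖ ≤ ε * Real.exp K := by
  have h1 := norm_le_gronwallBound_of_norm_deriv_right_le (f := f) (f' := f') (δ := 0) (K := K)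
    (ε := ε) (a := 0) (b := 1) (fun x hx => (hf x hx).continuousAt.continuousWithinAt)
    (fun x hx => (hf x ⟨hx.1, hx.2.le⟩).hasDerivWithinAt) (by simp [h0])
    (fun x hx => hb x ⟨hx.1, hx.2.le⟩) t ht
  refine h1.trans ?_
  rw [gronwallBound_of_K_ne_0 hK.ne']
  simp only [zero_mul, zero_add, sub_zero]
  have h2 : Real.exp (K * t) - 1 ≤ K * Real.exp K := by
    have h3 : Real.exp (K * t) ≤ Real.exp K :=
      Real.exp_le_exp.mpr (by nlinarith [ht.1, ht.2])
    have h4 : 1 - K ≤ Real.exp (-K) := by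
      have := Real.add_one_le_exp (-K)
      linarith
    have h5 : (1 - K) * Real.exp K ≤ 1 := by
      calc (1 - K) * Real.exp K ≤ Real.exp (-K) * Real.exp K :=
            mul_le_mul_of_nonneg_right h4 (Real.exp_pos K).le
        _ = 1 := by rw [← Real.exp_add]; simp
    linarith
  calc ε / K * (Real.exp (K * t) - 1) ≤ ε / K * (K * Real.exp K) :=
        mul_le_mul_of_nonneg_left h2 (by positivity)
    _ = ε * Real.exp K := by field_simp

/-- A `C^1` flat connection on an open subset of a normed space. -/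
structure FlatConn (P A : Type*) [NormedAddCommGroup P] [NormedSpace ℝ P] [NormedRing A]
    [NormedAlgebra ℝ A] where
  /-- the domain -/
  X : Set P
  isOpen : IsOpen X
  /-- the connection form -/
  w : P → P →L[ℝ] A
  /-- its derivative -/
  w' : P → P →L[ℝ] P →L[ℝ] A
  hw : ∀ p ∈ X, HasFDerivAt w (w' p) p
  cont' : ContinuousOn w' X
  flat : ∀ p ∈ X, ∀ x y, w' p x y - w' p y x = w p x * w p y - w p y * w p x

namespace FlatConn

variable {P A : Type*} [NormedAddCommGroup P] [NormedSpace ℝ P] [NormedRing A]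
    [NormedAlgebra ℝ A] (C : FlatConn P A)

theorem cont : ContinuousOn C.w C.X := fun p hp => (C.hw p hp).continuousAt.continuousWithinAt

/-- The projection of `ℝ` to `[0,1]`. -/
noncomputable def cl (t : ℝ) : ℝ := max 0 (min 1 t)

theorem cl_cont : Continuous cl := by unfold cl; fun_prop

theorem cl_mem (t : ℝ) : cl t ∈ Icc (0 : ℝ) 1 :=
  ⟨le_max_left _ _, max_le zero_le_one (min_le_left _ _)⟩

theorem cl_eq {t : ℝ} (ht : t ∈ Icc (0 : ℝ) 1) : cl t = t := by
  unfold cl; rw [min_eq_right ht.2, max_eq_right ht.1]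

/-- The straight line. -/
def ln (p q : P) (t : ℝ) : P := p + t • (q - p)

theorem ln_mem {p q : P} {t : ℝ} (ht : t ∈ Icc (0 : ℝ) 1) : ln p q t ∈ segment ℝ p q := by
  rw [segment_eq_image']
  exact ⟨t, ht, rfl⟩

theorem ln_cont (p q : P) : Continuous (ln p q) := by unfold ln; fun_prop

theorem ln_zero (p q : P) : ln p q 0 = p := by simp [ln]

theorem ln_one (p q : P) : ln p q 1 = q := by simp [ln]

/-- The coefficient of the linear ODE along a segment. -/
noncomputable def G (p q : P) (t : ℝ) : A := C.w (ln p q (cl t)) (q - p)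

theorem G_cont {p q : P} (h : segment ℝ p q ⊆ C.X) : Continuous (C.G p q) := by
  have h1 : Continuous fun t => C.w (ln p q (cl t)) :=
    C.cont.comp_continuous ((ln_cont p q).comp cl_cont) (fun t => h (ln_mem (cl_mem t)))
  exact h1.clm_apply continuous_const

variable [CompleteSpace A]

open Classical in
/-- The solution of the ODE along a segment. -/
noncomputable def U (p q : P) : ℝ → A :=
  if h : segment ℝ p q ⊆ C.X then Classical.choose (exists_sol (C.G p q) (C.G_cont h))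
  else fun _ => 1

theorem U_zero (p q : P) : C.U p q 0 = 1 := by
  unfold U
  split_ifs with h
  · exact (Classical.choose_spec (exists_sol (C.G p q) (C.G_cont h))).1
  · rfl

theorem U_deriv' {p q : P} (h : segment ℝ p q ⊆ C.X) (t : ℝ) :
    HasDerivAt (C.U p q) (C.G p q t * C.U p q t) t := by
  have h1 := (Classical.choose_spec (exists_sol (C.G p q) (C.G_cont h))).2 t
  have h2 : C.U p q = Classical.choose (exists_sol (C.G p q) (C.G_cont h)) := by
    unfold U; rw [dif_pos h]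
  rw [h2]; exact h1

theorem U_deriv {p q : P} (h : segment ℝ p q ⊆ C.X) {t : ℝ} (ht : t ∈ Icc (0 : ℝ) 1) :
    HasDerivAt (C.U p q) (C.w (ln p q t) (q - p) * C.U p q t) t := by
  have h1 := C.U_deriv' h t
  unfold G at h1
  rwa [cl_eq ht] at h1

/-- Transport along a straight segment. -/
noncomputable def tr (p q : P) : A := C.U p q 1

/-- Uniqueness: solutions along a segment. -/
theorem sol_unique {p q : P} (h : segment ℝ p q ⊆ C.X) {V : ℝ → A}
    (hV : ∀ t ∈ Icc (0 : ℝ) 1, HasDerivAt V (C.w (ln p q t) (q - p) * V t) t) {t : ℝ}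
    (ht : t ∈ Icc (0 : ℝ) 1) : V t = C.U p q t * V 0 := by
  obtain ⟨M, hM⟩ := (isCompact_Icc (a := (0 : ℝ)) (b := 1)).exists_bound_of_continuousOn
    (C.G_cont h).continuousOn
  set K : ℝ := |M| + 1
  have hK : 0 < K := by positivity
  have hd : ∀ s ∈ Icc (0 : ℝ) 1, HasDerivAt (fun s => V s - C.U p q s * V 0)
      (C.w (ln p q s) (q - p) * (V s - C.U p q s * V 0)) s := by
    intro s hs
    have h1 := (hV s hs).sub ((C.U_deriv h hs).mul_const (V 0))
    have e : C.w (ln p q s) (q - p) * V s - C.w (ln p q s) (q - p) * C.U p q s * V 0 =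
        C.w (ln p q s) (q - p) * (V s - C.U p q s * V 0) := by noncomm_ring
    rw [e] at h1; exact h1
  have key := gron (f := fun s => V s - C.U p q s * V 0)
    (f' := fun s => C.w (ln p q s) (q - p) * (V s - C.U p q s * V 0)) (K := K) (ε := 0) hK le_rfl
    hd (by simp [U_zero]) (fun s hs => by
      have h2 : ‖C.w (ln p q s) (q - p)‖ ≤ M := by
        have := hM s hs; unfold G at this; rwa [cl_eq hs] at this
      have h3 : ‖C.w (ln p q s) (q - p)‖ ≤ K := by
        have := le_abs_self M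
        simp only [K]; linarith
      simp only [add_zero]
      exact (norm_mul_le _ _).trans (mul_le_mul_of_nonneg_right h3 (norm_nonneg _))) ht
  rw [zero_mul] at key
  exact sub_eq_zero.mp (norm_le_zero_iff.mp key)

theorem seg_compact (p q : P) : IsCompact (segment ℝ p q) := by
  rw [segment_eq_image']
  exact isCompact_Icc.image (by fun_prop)

omit [CompleteSpace A] in
private theorem unif {p q : P} (h : segment ℝ p q ⊆ C.X) {ε : ℝ} (hε : 0 < ε) :
    ∃ δ > 0, ∀ x ∈ segment ℝ p q, ∀ y, dist y x < δ → y ∈ C.X ∧ ‖C.w' y - C.w' x‖ ≤ ε := by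
  obtain ⟨δ₀, hδ₀, hth⟩ := (seg_compact p q).exists_thickening_subset_open C.isOpen h
  have h0 : {r : (P →L[ℝ] P →L[ℝ] A) × (P →L[ℝ] P →L[ℝ] A) | dist r.1 r.2 < ε} ∈
      uniformity (P →L[ℝ] P →L[ℝ] A) :=
    @Metric.dist_mem_uniformity (P →L[ℝ] P →L[ℝ] A) _ ε hε
  have h1 := (seg_compact p q).uniformContinuousAt_of_continuousAt C.w'
    (fun a ha => C.cont'.continuousAt (C.isOpen.mem_nhds (h ha))) h0
  obtain ⟨δ₁, hδ₁, h2⟩ := Metric.mem_uniformity_dist.mp h1
  refine ⟨min δ₀ δ₁, lt_min hδ₀ hδ₁, fun x hx y hy => ⟨?_, ?_⟩⟩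
  · exact hth (Metric.mem_thickening_iff.mpr ⟨x, hx, hy.trans_le (min_le_left _ _)⟩)
  · have h3 := h2 (show dist x y < δ₁ by rw [dist_comm]; exact hy.trans_le (min_le_right _ _))
      hx
    have h4 : ‖C.w' y - C.w' x‖ < ε := by
      rw [← dist_eq_norm (C.w' y) (C.w' x), dist_comm (C.w' y) (C.w' x)]
      exact h3
    exact h4.le

omit [CompleteSpace A] in
private theorem taylor {p q : P} (h : segment ℝ p q ⊆ C.X) {ε : ℝ} (hε : 0 < ε) :
    ∃ δ > 0, ∀ x ∈ segment ℝ p q, ∀ k : P, ‖k‖ < δ → x + k ∈ C.X ∧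
      ‖C.w (x + k) - C.w x - C.w' x k‖ ≤ ε * ‖k‖ := by
  obtain ⟨δ, hδ, h1⟩ := C.unif h hε
  refine ⟨δ, hδ, fun x hx k hk => ⟨(h1 x hx (x + k) (by simpa [dist_eq_norm] using hk)).1, ?_⟩⟩
  have h2 := Convex.norm_image_sub_le_of_norm_hasFDerivWithin_le' (𝕜 := ℝ) (f := C.w)
    (f' := C.w') (s := Metric.ball x δ) (x := x) (y := x + k) (C := ε) (φ := C.w' x)
    (fun y hy => (C.hw y (h1 x hx y hy).1).hasFDerivWithinAt)
    (fun y hy => (h1 x hx y hy).2) (convex_ball x δ) (Metric.mem_ball_self hδ)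
    (by simpa [dist_eq_norm] using hk)
  simpa using h2

omit [NormedAlgebra ℝ A] [CompleteSpace A] in
/-- The algebraic heart: the error term of the variation of the segment. -/
private theorem alg (a wξ wk wη2 dwξ dw2 w'kξ w'ξk wkk U D : A)
    (hfl : w'kξ - w'ξk = wk * wξ - wξ * wk)
    (ha : a = wξ + dwξ + wη2 + dw2) (hd : dwξ = w'kξ + wkk) :
    a * (D + U + wk * U) - wξ * U - ((w'ξk + wη2) * U + wk * (wξ * U)) =
      a * D + (wkk + dw2 + (dwξ + wη2 + dw2) * wk) * U := by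
  subst ha
  have h1 : w'kξ = w'ξk + (wk * wξ - wξ * wk) := by rw [← hfl]; abel
  rw [hd, h1]
  noncomm_ring

/-- `q ↦ tr p q` is a flat section on the star of `p`. -/
theorem hasFDerivAt_tr {p q : P} (h : segment ℝ p q ⊆ C.X) :
    HasFDerivAt (fun q => C.tr p q)
      (((ContinuousLinearMap.mul ℝ A).flip (C.tr p q)).comp (C.w q)) q := by
  obtain ⟨M0, hM0⟩ := (seg_compact p q).exists_bound_of_continuousOn (C.cont.mono h)
  obtain ⟨M1, hM1⟩ : ∃ M1, ∀ x ∈ segment ℝ p q, ‖C.w' x‖ ≤ M1 :=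
    @IsCompact.exists_bound_of_continuousOn P (P →L[ℝ] P →L[ℝ] A) _ _ _ (seg_compact p q) _
      (C.cont'.mono h)
  obtain ⟨MU, hMU⟩ := (isCompact_Icc (a := (0 : ℝ)) (b := 1)).exists_bound_of_continuousOn
    (f := C.U p q) (fun t ht => (C.U_deriv h ht).continuousAt.continuousWithinAt)
  obtain ⟨m0, hm0, hM0⟩ : ∃ m : ℝ, 0 < m ∧ ∀ x ∈ segment ℝ p q, ‖C.w x‖ ≤ m :=
    ⟨|M0| + 1, by positivity, fun x hx => (hM0 x hx).trans (by linarith [le_abs_self M0])⟩
  obtain ⟨m1, hm1, hM1⟩ : ∃ m : ℝ, 0 < m ∧ ∀ x ∈ segment ℝ p q, ‖C.w' x‖ ≤ m :=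
    ⟨|M1| + 1, by positivity, fun x hx => (hM1 x hx).trans (by linarith [le_abs_self M1])⟩
  obtain ⟨mU, hmU, hMU⟩ : ∃ m : ℝ, 0 < m ∧ ∀ t ∈ Icc (0 : ℝ) 1, ‖C.U p q t‖ ≤ m :=
    ⟨|MU| + 1, by positivity, fun x hx => (hMU x hx).trans (by linarith [le_abs_self MU])⟩
  set n : ℝ := ‖q - p‖ with hn
  have hn0 : 0 ≤ n := norm_nonneg _
  set K : ℝ := (m0 + m1 + 1) * (n + 1) with hK
  have hK0 : 0 < K := by positivity
  set ex : ℝ := Real.exp K with hexd
  have hex : 0 < ex := Real.exp_pos K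
  set c : ℝ := (m1 + 1) + ((m1 + 1) * n + m0 + (m1 + 1)) * m0 with hc
  have hc0 : 0 < c := by positivity
  rw [hasFDerivAt_iff_isLittleO_nhds_zero, Asymptotics.isLittleO_iff]
  intro ε hε
  obtain ⟨ε₁, hε₁, hε₁1, hε₁2⟩ : ∃ e : ℝ, 0 < e ∧ e ≤ 1 ∧ e * n * mU * ex ≤ ε / 2 := by
    refine ⟨min 1 (ε / (2 * (n + 1) * mU * ex)), lt_min one_pos (by positivity),
      min_le_left _ _, ?_⟩
    have h1 : min 1 (ε / (2 * (n + 1) * mU * ex)) ≤ ε / (2 * (n + 1) * mU * ex) :=
      min_le_right _ _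
    calc min 1 (ε / (2 * (n + 1) * mU * ex)) * n * mU * ex
        ≤ ε / (2 * (n + 1) * mU * ex) * (n + 1) * mU * ex := by
          gcongr
          linarith
      _ = ε / 2 := by field_simp
  obtain ⟨δ, hδ, hT⟩ := C.taylor h hε₁
  have hδ' : 0 < min δ (min 1 (ε / (2 * c * mU * ex))) :=
    lt_min hδ (lt_min one_pos (by positivity))
  filter_upwards [Metric.ball_mem_nhds (0 : P) hδ'] with v hv
  rw [Metric.mem_ball, dist_zero_right] at hv
  have hv1 : ‖v‖ < δ := hv.trans_le (min_le_left _ _)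
  have hv2 : ‖v‖ ≤ 1 := (hv.trans_le ((min_le_right _ _).trans (min_le_left _ _))).le
  have hv3 : c * ‖v‖ * mU * ex ≤ ε / 2 := by
    have h1 : ‖v‖ ≤ ε / (2 * c * mU * ex) :=
      (hv.trans_le ((min_le_right _ _).trans (min_le_right _ _))).le
    calc c * ‖v‖ * mU * ex ≤ c * (ε / (2 * c * mU * ex)) * mU * ex := by gcongr
      _ = ε / 2 := by field_simp
  have hv0 : 0 ≤ ‖v‖ := norm_nonneg v
  have hln : ∀ t : ℝ, ln p (q + v) t = ln p q t + t • v := by
    intro t; simp only [ln]; module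
  have htv : ∀ t ∈ Icc (0 : ℝ) 1, ‖t • v‖ ≤ ‖v‖ := by
    intro t ht
    rw [norm_smul, Real.norm_of_nonneg ht.1]
    nlinarith [ht.2]
  have hseg : segment ℝ p (q + v) ⊆ C.X := by
    rw [segment_eq_image']
    rintro _ ⟨t, ht, rfl⟩
    have h1 := (hT _ (ln_mem (p := p) (q := q) ht) (t • v) ((htv t ht).trans_lt hv1)).1
    rw [← hln] at h1
    exact h1
  set f : ℝ → A := fun t => C.U p (q + v) t - C.U p q t - C.w (ln p q t) (t • v) * C.U p q t
    with hf
  set f' : ℝ → A := fun t => C.w (ln p (q + v) t) (q + v - p) * C.U p (q + v) t -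
      C.w (ln p q t) (q - p) * C.U p q t -
      ((C.w' (ln p q t) (q - p) (t • v) + C.w (ln p q t) v) * C.U p q t +
        C.w (ln p q t) (t • v) * (C.w (ln p q t) (q - p) * C.U p q t)) with hf'
  have hder : ∀ t ∈ Icc (0 : ℝ) 1, HasDerivAt f (f' t) t := by
    intro t ht
    have h0 : HasDerivAt (ln p q) (q - p) t := by
      have h00 := ((hasDerivAt_id t).smul_const (q - p)).const_add p
      rw [one_smul] at h00
      exact h00
    have h1 : HasDerivAt (fun t => C.w (ln p q t)) (C.w' (ln p q t) (q - p)) t :=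
      (C.hw _ (h (ln_mem ht))).comp_hasDerivAt t h0
    have h2 : HasDerivAt (fun t : ℝ => t • v) v t := by
      simpa using (hasDerivAt_id t).smul_const v
    have h3 : HasDerivAt (fun t => C.w (ln p q t) (t • v))
        (C.w' (ln p q t) (q - p) (t • v) + C.w (ln p q t) v) t := h1.clm_apply h2
    have h4 := ((C.U_deriv hseg ht).sub (C.U_deriv h ht)).sub (h3.mul (C.U_deriv h ht))
    exact h4
  have hbd : ∀ t ∈ Icc (0 : ℝ) 1, ‖f' t‖ ≤ K * ‖f t‖ + (ε₁ * n + c * ‖v‖) * ‖v‖ * mU := by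
    intro t ht
    set x := ln p q t with hx
    have hxs : x ∈ segment ℝ p q := ln_mem ht
    set k : P := t • v with hk
    have hkv : ‖k‖ ≤ ‖v‖ := htv t ht
    have hTk := (hT x hxs k (hkv.trans_lt hv1)).2
    have hxk : ln p (q + v) t = x + k := hln t
    have e1 : C.U p (q + v) t = f t + C.U p q t + C.w x k * C.U p q t := by
      simp only [hf]; abel
    have e2 : f' t = C.w (x + k) ((q - p) + v) * (f t + C.U p q t + C.w x k * C.U p q t) -
        C.w x (q - p) * C.U p q t - ((C.w' x (q - p) k + C.w x v) * C.U p q t +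
          C.w x k * (C.w x (q - p) * C.U p q t)) := by
      rw [← e1]
      simp only [hf']
      rw [hxk, show q + v - p = (q - p) + v by abel]
    have e3 := alg (C.w (x + k) ((q - p) + v)) (C.w x (q - p)) (C.w x k) (C.w x v)
      ((C.w (x + k) - C.w x) (q - p)) ((C.w (x + k) - C.w x) v) (C.w' x k (q - p))
      (C.w' x (q - p) k) ((C.w (x + k) - C.w x - C.w' x k) (q - p)) (C.U p q t) (f t)
      (C.flat x (h hxs) k (q - p))
      (by simp only [map_add, sub_apply]; abel)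
      (by simp only [sub_apply]; abel)
    rw [e2, e3]
    have b0 : ‖C.w (x + k) - C.w x‖ ≤ (m1 + 1) * ‖v‖ := by
      have h1 : C.w (x + k) - C.w x = (C.w (x + k) - C.w x - C.w' x k) + C.w' x k := by abel
      rw [h1]
      calc ‖(C.w (x + k) - C.w x - C.w' x k) + C.w' x k‖
          ≤ ‖C.w (x + k) - C.w x - C.w' x k‖ + ‖C.w' x k‖ := norm_add_le _ _
        _ ≤ ε₁ * ‖k‖ + m1 * ‖k‖ := by
            refine add_le_add hTk (((C.w' x).le_opNorm k).trans ?_)
            exact mul_le_mul_of_nonneg_right (hM1 x hxs) (norm_nonneg _)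
        _ ≤ 1 * ‖v‖ + m1 * ‖v‖ := by gcongr
        _ = (m1 + 1) * ‖v‖ := by ring
    have b1 : ‖(C.w (x + k) - C.w x) (q - p)‖ ≤ (m1 + 1) * ‖v‖ * n :=
      ((C.w (x + k) - C.w x).le_opNorm _).trans (mul_le_mul_of_nonneg_right b0 hn0)
    have b2 : ‖(C.w (x + k) - C.w x) v‖ ≤ (m1 + 1) * ‖v‖ * ‖v‖ :=
      ((C.w (x + k) - C.w x).le_opNorm _).trans (mul_le_mul_of_nonneg_right b0 hv0)
    have b3 : ‖C.w x k‖ ≤ m0 * ‖v‖ :=
      ((C.w x).le_opNorm _).trans (mul_le_mul (hM0 x hxs) hkv (norm_nonneg _) hm0.le)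
    have b4 : ‖C.w x v‖ ≤ m0 * ‖v‖ :=
      ((C.w x).le_opNorm _).trans (mul_le_mul_of_nonneg_right (hM0 x hxs) hv0)
    have b5 : ‖(C.w (x + k) - C.w x - C.w' x k) (q - p)‖ ≤ ε₁ * ‖v‖ * n :=
      ((C.w (x + k) - C.w x - C.w' x k).le_opNorm _).trans
        (mul_le_mul_of_nonneg_right (hTk.trans (by gcongr)) hn0)
    have b6 : ‖C.w (x + k) ((q - p) + v)‖ ≤ K := by
      have h1 : C.w (x + k) = (C.w (x + k) - C.w x) + C.w x := by abel
      have h2 : ‖C.w (x + k)‖ ≤ m0 + m1 + 1 := by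
        rw [h1]
        calc ‖(C.w (x + k) - C.w x) + C.w x‖ ≤ ‖C.w (x + k) - C.w x‖ + ‖C.w x‖ :=
              norm_add_le _ _
          _ ≤ (m1 + 1) * ‖v‖ + m0 := add_le_add b0 (hM0 x hxs)
          _ ≤ (m1 + 1) * 1 + m0 := by gcongr
          _ = m0 + m1 + 1 := by ring
      have h3 : ‖(q - p) + v‖ ≤ n + 1 := (norm_add_le _ _).trans (by linarith)
      exact ((C.w (x + k)).le_opNorm _).trans
        (mul_le_mul h2 h3 (norm_nonneg _) (by positivity))
    have b7 : ‖(C.w (x + k) - C.w x) (q - p) + C.w x v + (C.w (x + k) - C.w x) v‖ ≤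
        ((m1 + 1) * n + m0 + (m1 + 1)) * ‖v‖ := by
      calc _ ≤ ‖(C.w (x + k) - C.w x) (q - p)‖ + ‖C.w x v‖ + ‖(C.w (x + k) - C.w x) v‖ :=
            norm_add₃_le
        _ ≤ (m1 + 1) * ‖v‖ * n + m0 * ‖v‖ + (m1 + 1) * ‖v‖ * ‖v‖ :=
            add_le_add (add_le_add b1 b4) b2
        _ ≤ (m1 + 1) * ‖v‖ * n + m0 * ‖v‖ + (m1 + 1) * ‖v‖ * 1 := by gcongr
        _ = ((m1 + 1) * n + m0 + (m1 + 1)) * ‖v‖ := by ring
    have b8 : ‖(C.w (x + k) - C.w x - C.w' x k) (q - p) + (C.w (x + k) - C.w x) v +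
        ((C.w (x + k) - C.w x) (q - p) + C.w x v + (C.w (x + k) - C.w x) v) * C.w x k‖ ≤
        (ε₁ * n + c * ‖v‖) * ‖v‖ := by
      calc _ ≤ ‖(C.w (x + k) - C.w x - C.w' x k) (q - p)‖ + ‖(C.w (x + k) - C.w x) v‖ +
            ‖((C.w (x + k) - C.w x) (q - p) + C.w x v + (C.w (x + k) - C.w x) v) * C.w x k‖ :=
            norm_add₃_le
        _ ≤ ε₁ * ‖v‖ * n + (m1 + 1) * ‖v‖ * ‖v‖ +
            ((m1 + 1) * n + m0 + (m1 + 1)) * ‖v‖ * (m0 * ‖v‖) := by
            refine add_le_add (add_le_add b5 b2) ((norm_mul_le _ _).trans ?_)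
            exact mul_le_mul b7 b3 (norm_nonneg _) (by positivity)
        _ = (ε₁ * n + c * ‖v‖) * ‖v‖ := by rw [hc]; ring
    calc _ ≤ ‖C.w (x + k) ((q - p) + v) * f t‖ + _ := norm_add_le _ _
      _ ≤ K * ‖f t‖ + (ε₁ * n + c * ‖v‖) * ‖v‖ * mU := by
          refine add_le_add ((norm_mul_le _ _).trans ?_) ((norm_mul_le _ _).trans ?_)
          · exact mul_le_mul_of_nonneg_right b6 (norm_nonneg _)
          · exact mul_le_mul b8 (hMU t ht) (norm_nonneg _) (by positivity)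
  have key := gron hK0 (by positivity) hder (by simp [hf, U_zero, ln_zero]) hbd
    (t := 1) ⟨zero_le_one, le_rfl⟩
  have e : f 1 = C.tr p (q + v) - C.tr p q -
      (((ContinuousLinearMap.mul ℝ A).flip (C.tr p q)).comp (C.w q)) v := by
    simp only [hf, tr, ln_one, one_smul]
    rfl
  rw [← e]
  refine key.trans ?_
  calc (ε₁ * n + c * ‖v‖) * ‖v‖ * mU * Real.exp K
      = (ε₁ * n * mU * ex + c * ‖v‖ * mU * ex) * ‖v‖ := by rw [hexd]; ring
    _ ≤ (ε / 2 + ε / 2) * ‖v‖ := by gcongr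
    _ = ε * ‖v‖ := by ring

end FlatConn

end Pool.Agent.QC.Ode
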