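import Mathlib

/-!
# The gauge theorem at a simple pole

`A` a complex Banach algebra, `e` an idempotent, `s` a complex number which is not an integer,
`M` analytic at `z0`. There is `U` holomorphic near `z0`, `U z0 = 1`, with
`(z - z0) U' = s (e U - U e) + (z - z0) M U`.
-/

set_option autoImplicit false

open Finset Metric
open scoped Topology

namespace Pool.Agent.QC.Ode

variable {A : Type*} [NormedRing A] [NormedAlgebra ℂ A]

/-- The inverse of `k - s ad e`. -/
noncomputable def Sinv (e : A) (s : ℂ) (k : ℂ) (W : A) : A :=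
  (1 / k) • (e * W * e + (1 - e) * W * (1 - e)) + (1 / (k - s)) • (e * W * (1 - e)) +
    (1 / (k + s)) • ((1 - e) * W * e)

theorem Sinv_spec {e : A} (he : e * e = e) {s k : ℂ} (hk : k ≠ 0) (h1 : k - s ≠ 0)
    (h2 : k + s ≠ 0) (W : A) :
    k • Sinv e s k W = s • (e * Sinv e s k W - Sinv e s k W * e) + W := by
  have he1 : e * (1 - e) = 0 := by rw [mul_sub, mul_one, he, sub_self]
  have he2 : (1 - e) * e = 0 := by rw [sub_mul, one_mul, he, sub_self]
  have he3 : (1 - e) * (1 - e) = 1 - e := by rw [mul_sub, mul_one, he2, sub_zero]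
  set W1 := e * W * e + (1 - e) * W * (1 - e) with hW1
  set W2 := e * W * (1 - e) with hW2
  set W3 := (1 - e) * W * e with hW3
  have c1 : e * W1 - W1 * e = 0 := by
    rw [hW1]
    have a1 : e * (e * W * e + (1 - e) * W * (1 - e)) = e * W * e := by
      rw [mul_add, ← mul_assoc, ← mul_assoc, he, ← mul_assoc, ← mul_assoc, he1, zero_mul,
        zero_mul, add_zero]
    have a2 : (e * W * e + (1 - e) * W * (1 - e)) * e = e * W * e := by
      rw [add_mul, mul_assoc (e * W), he, mul_assoc ((1 - e) * W), he2, mul_zero, add_zero]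
    rw [a1, a2, sub_self]
  have c2 : e * W2 - W2 * e = W2 := by
    rw [hW2, ← mul_assoc, ← mul_assoc, he, mul_assoc (e * W), he2, mul_zero, sub_zero]
  have c3 : e * W3 - W3 * e = -W3 := by
    rw [hW3, ← mul_assoc, ← mul_assoc, he1, zero_mul, zero_mul, mul_assoc ((1 - e) * W), he,
      zero_sub]
  have c4 : W1 + W2 + W3 = W := by
    rw [hW1, hW2, hW3]; noncomm_ring
  have c5 : e * Sinv e s k W - Sinv e s k W * e = (1 / (k - s)) • W2 - (1 / (k + s)) • W3 := by
    have : e * Sinv e s k W - Sinv e s k W * e =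
        (1 / k) • (e * W1 - W1 * e) + (1 / (k - s)) • (e * W2 - W2 * e) +
          (1 / (k + s)) • (e * W3 - W3 * e) := by
      simp only [Sinv, ← hW1, ← hW2, ← hW3, mul_add, add_mul, mul_smul_comm, smul_mul_assoc,
        smul_sub]
      abel
    rw [this, c1, c2, c3]
    simp [sub_eq_add_neg]
  rw [c5]
  conv_rhs => rw [← c4]
  simp only [Sinv, ← hW1, ← hW2, ← hW3]
  have d1 : k • (1 / k) • W1 = W1 := by rw [smul_smul]; field_simp; simp
  have d2 : k • (1 / (k - s)) • W2 = s • (1 / (k - s)) • W2 + W2 := by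
    rw [smul_smul, smul_smul]
    nth_rw 3 [← one_smul ℂ W2]
    rw [← add_smul]
    congr 1
    field_simp
    ring
  have d3 : k • (1 / (k + s)) • W3 = -(s • (1 / (k + s)) • W3) + W3 := by
    rw [smul_smul, smul_smul]
    nth_rw 3 [← one_smul ℂ W3]
    rw [← neg_smul, ← add_smul]
    congr 1
    field_simp
    ring
  rw [smul_add, smul_add, d1, d2, d3, smul_sub]
  abel

theorem Sinv_bound (e : A) {s : ℂ} {d : ℝ} (hd : 0 < d) (hs : ∀ k : ℤ, d ≤ ‖(k : ℂ) - s‖) :
    ∃ c : ℝ, 0 < c ∧ ∀ (n : ℕ) (W : A), n ≠ 0 → ‖Sinv e s n W‖ ≤ c * ‖W‖ := by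
  set m : ℝ := ‖e‖ + ‖1 - e‖ with hm
  have hm0 : 0 ≤ m := by positivity
  have m1 : ‖e‖ ≤ m := by rw [hm]; linarith [norm_nonneg (1 - e)]
  have m2 : ‖1 - e‖ ≤ m := by rw [hm]; linarith [norm_nonneg e]
  have hb : ∀ (x y W : A), ‖x‖ ≤ m → ‖y‖ ≤ m → ‖x * W * y‖ ≤ m * ‖W‖ * m := by
    intro x y W hx hy
    calc ‖x * W * y‖ ≤ ‖x * W‖ * ‖y‖ := norm_mul_le _ _
      _ ≤ (‖x‖ * ‖W‖) * ‖y‖ := by gcongr; exact norm_mul_le _ _
      _ ≤ m * ‖W‖ * m := by gcongr
  refine ⟨m * m * (2 + 2 / d) + 1, by positivity, fun n W hn => ?_⟩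
  have hn1 : (1 : ℝ) ≤ n := by exact_mod_cast Nat.one_le_iff_ne_zero.mpr hn
  have k1 : ‖(1 / (n : ℂ))‖ ≤ 1 := by
    rw [norm_div, norm_one, Complex.norm_natCast]
    exact (div_le_one (by linarith)).mpr hn1
  have k2 : ‖1 / ((n : ℂ) - s)‖ ≤ 1 / d := by
    rw [norm_div, norm_one]
    have := hs n
    push_cast at this
    exact one_div_le_one_div_of_le hd this
  have k3 : ‖1 / ((n : ℂ) + s)‖ ≤ 1 / d := by
    rw [norm_div, norm_one]
    have := hs (-(n : ℤ))
    push_cast at this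
    have e1 : ‖-(n : ℂ) - s‖ = ‖(n : ℂ) + s‖ := by rw [← norm_neg]; congr 1; ring
    rw [e1] at this
    exact one_div_le_one_div_of_le hd this
  have hW := norm_nonneg W
  calc ‖Sinv e s n W‖ ≤ ‖(1 / (n : ℂ)) • (e * W * e + (1 - e) * W * (1 - e))‖ +
        ‖(1 / ((n : ℂ) - s)) • (e * W * (1 - e))‖ + ‖(1 / ((n : ℂ) + s)) • ((1 - e) * W * e)‖ :=
        norm_add₃_le
    _ ≤ 1 * (m * ‖W‖ * m + m * ‖W‖ * m) + 1 / d * (m * ‖W‖ * m) + 1 / d * (m * ‖W‖ * m) := by
        rw [norm_smul, norm_smul, norm_smul]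
        gcongr
        · exact (norm_add_le _ _).trans (add_le_add (hb _ _ _ m1 m1) (hb _ _ _ m2 m2))
        · exact hb _ _ _ m1 m2
        · exact hb _ _ _ m2 m1
    _ = m * m * (2 + 2 / d) * ‖W‖ := by ring
    _ ≤ (m * m * (2 + 2 / d) + 1) * ‖W‖ := by nlinarith

/-- The coefficients of the gauge transformation. -/
noncomputable def gco (e : A) (s : ℂ) (M : ℕ → A) : ℕ → A
  | 0 => 1
  | n + 1 => Sinv e s ((n + 1 : ℕ) : ℂ) (∑ k : Fin (n + 1), M k * gco e s M (n - k))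
decreasing_by omega

theorem gco_zero (e : A) (s : ℂ) (M : ℕ → A) : gco e s M 0 = 1 := by rw [gco]

theorem gco_succ (e : A) (s : ℂ) (M : ℕ → A) (n : ℕ) :
    gco e s M (n + 1) =
      Sinv e s ((n + 1 : ℕ) : ℂ) (∑ k ∈ range (n + 1), M k * gco e s M (n - k)) := by
  rw [gco, ← Fin.sum_univ_eq_sum_range (fun k => M k * gco e s M (n - k)) (n + 1)]

theorem gco_bound {e : A} {s : ℂ} {M : ℕ → A} {c B A0 : ℝ} (hc : 0 < c) (hB : 0 < B)
    (hA : 0 < A0) (hS : ∀ (n : ℕ) (W : A), n ≠ 0 → ‖Sinv e s n W‖ ≤ c * ‖W‖)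
    (hM : ∀ k, ‖M k‖ ≤ B * A0 ^ k) (n : ℕ) :
    ‖gco e s M n‖ ≤ (‖(1 : A)‖ + 1) * (A0 + c * B) ^ n := by
  set R : ℝ := A0 + c * B with hR
  have hR0 : 0 < R := by positivity
  set c1 : ℝ := ‖(1 : A)‖ + 1 with hc1
  have hc10 : 0 < c1 := by positivity
  induction n using Nat.strong_induction_on with
  | _ n ih =>
    rcases n with _ | n
    · rw [gco_zero, pow_zero, mul_one, hc1]; linarith
    · rw [gco_succ]
      have h1 : ‖∑ k ∈ range (n + 1), M k * gco e s M (n - k)‖ ≤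
          ∑ k ∈ range (n + 1), B * c1 * (A0 ^ k * R ^ (n + 1 - 1 - k)) := by
        refine (norm_sum_le _ _).trans (Finset.sum_le_sum fun k hk => ?_)
        have hk' : k ≤ n := Nat.lt_succ_iff.mp (Finset.mem_range.mp hk)
        calc ‖M k * gco e s M (n - k)‖ ≤ ‖M k‖ * ‖gco e s M (n - k)‖ := norm_mul_le _ _
          _ ≤ (B * A0 ^ k) * (c1 * R ^ (n - k)) :=
            mul_le_mul (hM k) (ih (n - k) (by omega)) (norm_nonneg _) (by positivity)
          _ = B * c1 * (A0 ^ k * R ^ (n + 1 - 1 - k)) := by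
            rw [Nat.add_sub_cancel]; ring
      have h2 := geom_sum₂_mul A0 R (n + 1)
      have h3 : c * (∑ k ∈ range (n + 1), B * c1 * (A0 ^ k * R ^ (n + 1 - 1 - k))) =
          c1 * (R ^ (n + 1) - A0 ^ (n + 1)) := by
        rw [← Finset.mul_sum]
        have h4 : A0 - R = -(c * B) := by rw [hR]; ring
        rw [h4] at h2
        linear_combination -c1 * h2
      calc ‖Sinv e s ((n + 1 : ℕ) : ℂ) (∑ k ∈ range (n + 1), M k * gco e s M (n - k))‖
          ≤ c * ‖∑ k ∈ range (n + 1), M k * gco e s M (n - k)‖ := hS _ _ (Nat.succ_ne_zero n)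
        _ ≤ c * (∑ k ∈ range (n + 1), B * c1 * (A0 ^ k * R ^ (n + 1 - 1 - k))) := by gcongr
        _ = c1 * (R ^ (n + 1) - A0 ^ (n + 1)) := h3
        _ ≤ c1 * R ^ (n + 1) := by
          have : 0 < A0 ^ (n + 1) := by positivity
          gcongr
          linarith

variable [CompleteSpace A]

/-- The gauge theorem at `0` in terms of coefficients. -/
theorem gauge0 {e : A} (he : e * e = e) {s : ℂ} (hs : ∀ k : ℤ, (k : ℂ) ≠ s) {M : ℕ → A}
    {B A0 : ℝ} (hB : 0 < B) (hA : 0 < A0) (hM : ∀ k, ‖M k‖ ≤ B * A0 ^ k) :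
    ∃ ρ : ℝ, 0 < ρ ∧ ρ * A0 < 1 ∧ ∃ U U' : ℂ → A, U 0 = 1 ∧ ∀ z ∈ ball (0 : ℂ) ρ,
      HasDerivAt U (U' z) z ∧
      z • U' z = s • (e * U z - U z * e) + z • ((∑' n, z ^ n • M n) * U z) := by
  obtain ⟨d, hd, hsd⟩ : ∃ d : ℝ, 0 < d ∧ ∀ k : ℤ, d ≤ ‖(k : ℂ) - s‖ := by
    have hcl : IsClosed (Set.range ((↑) : ℤ → ℂ)) := Complex.isClosedEmbedding_intCast.isClosed_range
    have hne : (Set.range ((↑) : ℤ → ℂ)).Nonempty := ⟨0, 0, by simp⟩
    have h1 := (hcl.notMem_iff_infDist_pos hne (x := s)).mp (by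
      rintro ⟨k, hk⟩; exact hs k hk)
    refine ⟨_, h1, fun k => ?_⟩
    have := Metric.infDist_le_dist_of_mem (x := s) (Set.mem_range_self (f := ((↑) : ℤ → ℂ)) k)
    rwa [dist_comm, dist_eq_norm] at this
  obtain ⟨c, hc, hS⟩ := Sinv_bound e hd hsd
  set R : ℝ := A0 + c * B with hR
  have hR0 : 0 < R := by positivity
  have hAR : A0 ≤ R := by rw [hR]; nlinarith [mul_pos hc hB]
  set g : ℕ → A := gco e s M with hg
  set c1 : ℝ := ‖(1 : A)‖ + 1 with hc1
  have hgb : ∀ n, ‖g n‖ ≤ c1 * R ^ n := gco_bound hc hB hA hS hM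
  set ρ : ℝ := 1 / (2 * R) with hρ
  have hρ0 : 0 < ρ := by positivity
  have hρR : ρ * R = 1 / 2 := by rw [hρ]; field_simp
  refine ⟨ρ, hρ0, ?_, fun z => ∑' n, z ^ n • g n,
    fun z => ∑' n : ℕ, ((n : ℂ) * z ^ (n - 1)) • g n, ?_, ?_⟩
  · nlinarith
  · show ∑' n, (0 : ℂ) ^ n • g n = 1
    rw [tsum_eq_single 0 (fun n hn => by rw [zero_pow hn, zero_smul])]
    simp [hg, gco_zero]
  have hnz : ∀ z ∈ ball (0 : ℂ) ρ, ∀ n, ‖z ^ n • g n‖ ≤ c1 * (1 / 2) ^ n := by
    intro z hz n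
    rw [mem_ball_zero_iff] at hz
    rw [norm_smul, norm_pow]
    calc ‖z‖ ^ n * ‖g n‖ ≤ ρ ^ n * (c1 * R ^ n) := by
          gcongr
          exact hgb n
      _ = c1 * (ρ * R) ^ n := by rw [mul_pow]; ring
      _ = c1 * (1 / 2) ^ n := by rw [hρR]
  have hgeo : Summable fun n : ℕ => ((1 : ℝ) / 2) ^ n := summable_geometric_two
  intro z hz
  have hs1n : Summable fun n => ‖z ^ n • g n‖ :=
    Summable.of_nonneg_of_le (fun _ => norm_nonneg _) (hnz z hz) (hgeo.mul_left c1)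
  have hs1 : Summable fun n => z ^ n • g n := hs1n.of_norm
  have hs2n : Summable fun n => ‖z ^ n • M n‖ := by
    refine Summable.of_nonneg_of_le (fun _ => norm_nonneg _) (fun n => ?_) (hgeo.mul_left B)
    rw [mem_ball_zero_iff] at hz
    rw [norm_smul, norm_pow]
    calc ‖z‖ ^ n * ‖M n‖ ≤ ρ ^ n * (B * A0 ^ n) := by
          gcongr
          exact hM n
      _ = B * (ρ * A0) ^ n := by rw [mul_pow]; ring
      _ ≤ B * (1 / 2) ^ n := by
          have : ρ * A0 ≤ 1 / 2 := by nlinarith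
          gcongr
  have hu : Summable fun n : ℕ => (n : ℝ) * ρ ^ (n - 1) * (c1 * R ^ n) := by
    rw [← summable_nat_add_iff 1]
    have h1 : Summable fun n : ℕ => ((n : ℝ) ^ 1 * (1 / 2 : ℝ) ^ n + (1 / 2) ^ n) * (c1 * R) :=
      ((summable_pow_mul_geometric_of_norm_lt_one 1 (by norm_num)).add hgeo).mul_right _
    refine h1.congr fun n => ?_
    rw [Nat.add_sub_cancel, ← hρR, mul_pow]
    push_cast
    ring
  refine ⟨?_, ?_⟩
  · refine hasDerivAt_tsum_of_isPreconnected (g := fun n z => z ^ n • g n)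
      (g' := fun n z => ((n : ℂ) * z ^ (n - 1)) • g n) hu isOpen_ball
      (convex_ball (0 : ℂ) ρ).isPreconnected (fun n y _ => (hasDerivAt_pow n y).smul_const (g n))
      (fun n y hy => ?_) hz hs1 hz
    rw [mem_ball_zero_iff] at hy
    rw [norm_smul, norm_mul, norm_pow, Complex.norm_natCast]
    gcongr
    exact hgb n
  · have hsn : Summable fun n : ℕ => ((n : ℂ) * z ^ n) • g n := by
      have h1 : Summable fun n : ℕ => ((n : ℂ) * z ^ (n - 1)) • g n := by
        refine Summable.of_norm_bounded hu fun n => ?_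
        rw [mem_ball_zero_iff] at hz
        rw [norm_smul, norm_mul, norm_pow, Complex.norm_natCast]
        gcongr
        exact hgb n
      refine (h1.const_smul z).congr fun n => ?_
      rcases n with _ | n
      · simp
      · rw [smul_smul, Nat.add_sub_cancel]; congr 1; ring
    have e1 : z • ∑' n : ℕ, ((n : ℂ) * z ^ (n - 1)) • g n = ∑' n : ℕ, ((n : ℂ) * z ^ n) • g n := by
      rw [← tsum_const_smul'']
      refine tsum_congr fun n => ?_
      rcases n with _ | n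
      · simp
      · rw [smul_smul, Nat.add_sub_cancel]; congr 1; ring
    have e2 : ∑' n : ℕ, ((n : ℂ) * z ^ n) • g n =
        ∑' n : ℕ, (((n + 1 : ℕ) : ℂ) * z ^ (n + 1)) • g (n + 1) := by
      rw [hsn.tsum_eq_zero_add]; simp
    have hs1' : Summable fun n => z ^ (n + 1) • g (n + 1) := (summable_nat_add_iff 1).mpr hs1
    have e3 : e * (∑' n, z ^ n • g n) - (∑' n, z ^ n • g n) * e =
        ∑' n : ℕ, z ^ (n + 1) • (e * g (n + 1) - g (n + 1) * e) := by
      rw [hs1.tsum_eq_zero_add]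
      have h0 : z ^ 0 • g 0 = 1 := by simp [hg, gco_zero]
      rw [h0, mul_add, add_mul, mul_one, one_mul, ← hs1'.tsum_mul_left, ← hs1'.tsum_mul_right,
        add_sub_add_left_eq_sub, ← (hs1'.mul_left e).tsum_sub (hs1'.mul_right e)]
      refine tsum_congr fun n => ?_
      rw [mul_smul_comm, smul_mul_assoc, smul_sub]
    have e4 : (∑' n, z ^ n • M n) * (∑' n, z ^ n • g n) =
        ∑' n : ℕ, z ^ n • ∑ k ∈ range (n + 1), M k * g (n - k) := by
      rw [tsum_mul_tsum_eq_tsum_sum_range_of_summable_norm hs2n hs1n]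
      refine tsum_congr fun n => ?_
      rw [Finset.smul_sum]
      refine Finset.sum_congr rfl fun k hk => ?_
      have hk' : k ≤ n := Nat.lt_succ_iff.mp (Finset.mem_range.mp hk)
      rw [smul_mul_smul_comm, ← pow_add, Nat.add_sub_cancel' hk']
    have hsA : Summable fun n : ℕ => z ^ (n + 1) • (e * g (n + 1) - g (n + 1) * e) := by
      refine ((hs1'.mul_left e).sub (hs1'.mul_right e)).congr fun n => ?_
      rw [mul_smul_comm, smul_mul_assoc, smul_sub]
    have hsB : Summable fun n : ℕ => z ^ n • ∑ k ∈ range (n + 1), M k * g (n - k) := by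
      have h1 := (summable_norm_sum_mul_range_of_summable_norm hs2n hs1n).of_norm
      refine h1.congr fun n => ?_
      rw [Finset.smul_sum]
      refine Finset.sum_congr rfl fun k hk => ?_
      have hk' : k ≤ n := Nat.lt_succ_iff.mp (Finset.mem_range.mp hk)
      rw [smul_mul_smul_comm, ← pow_add, Nat.add_sub_cancel' hk']
    show z • ∑' n : ℕ, ((n : ℂ) * z ^ (n - 1)) • g n = _
    rw [e1, e2, e3, e4, ← tsum_const_smul'', ← tsum_const_smul'',
      ← (hsA.const_smul s).tsum_add (hsB.const_smul z)]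
    refine tsum_congr fun n => ?_
    have hn1 : (((n + 1 : ℕ) : ℂ)) ≠ 0 := by exact_mod_cast Nat.succ_ne_zero n
    have hn2 : (((n + 1 : ℕ) : ℂ)) - s ≠ 0 := by
      intro h
      exact hs ((n + 1 : ℕ) : ℤ) (by push_cast; push_cast at h; linear_combination h)
    have hn3 : (((n + 1 : ℕ) : ℂ)) + s ≠ 0 := by
      intro h
      exact hs (-((n + 1 : ℕ) : ℤ)) (by push_cast; push_cast at h; linear_combination -h)
    have h5 := Sinv_spec he hn1 hn2 hn3 (∑ k ∈ range (n + 1), M k * g (n - k))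
    rw [← gco_succ e s M n] at h5
    change (((n + 1 : ℕ) : ℂ)) • g (n + 1) = s • (e * g (n + 1) - g (n + 1) * e) +
      ∑ k ∈ range (n + 1), M k * g (n - k) at h5
    rw [mul_comm, mul_smul, h5, smul_add, smul_comm (z ^ (n + 1)) s, smul_smul z, ← pow_succ']

end Pool.Agent.QC.Ode
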