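import Pool.Agent.QC.Ode.Tri

/-!
# Holomorphic connections

`holConn`: the flat connection `Y' = M(z) Y` on an open subset of `ℂ`, `M` holomorphic with values
in a complex Banach algebra. `cplxConn`: a holomorphic flat connection on an open subset of a
complex normed space.
-/

set_option autoImplicit false

open Set Metric
open scoped Topology

namespace Pool.Agent.QC.Ode

variable {A : Type*} [NormedRing A] [NormedAlgebra ℂ A]

/-- `a ↦ (h ↦ h a)` as a real linear map. -/
noncomputable def Lam (A : Type*) [NormedRing A] [NormedAlgebra ℂ A] : A →L[ℝ] ℂ →L[ℝ] A :=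
  (ContinuousLinearMap.lsmul ℝ ℂ : ℂ →L[ℝ] A →L[ℝ] A).flip

@[simp] theorem Lam_apply (a : A) (h : ℂ) : Lam A a h = h • a := rfl

/-- The connection `Y' = M(z) Y`. -/
noncomputable def holConn (X : Set ℂ) (hX : IsOpen X) (M : ℂ → A) (hM : DifferentiableOn ℂ M X)
    [CompleteSpace A] : FlatConn ℂ A where
  X := X
  isOpen := hX
  w := fun z => Lam A (M z)
  w' := fun z => (Lam A).comp (Lam A (deriv M z))
  hw := by
    intro z hz
    have h1 : HasDerivAt M (deriv M z) z := (hM.differentiableAt (hX.mem_nhds hz)).hasDerivAt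
    have h2 : HasFDerivAt M (Lam A (deriv M z)) z := by
      have e : Lam A (deriv M z) = (ContinuousLinearMap.toSpanSingleton ℂ
          (deriv M z)).restrictScalars ℝ := by
        ext
        simp
      rw [e]
      exact h1.hasFDerivAt.restrictScalars ℝ
    exact (Lam A).hasFDerivAt.comp z h2
  cont' := by
    have h1 : ContinuousOn (deriv M) X := (hM.deriv hX).continuousOn
    have h2 : Continuous fun a : A => (Lam A).comp (Lam A a) :=
      (ContinuousLinearMap.compL ℝ ℂ A (ℂ →L[ℝ] A) (Lam A)).continuous.comp (Lam A).continuous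
    exact h2.comp_continuousOn h1
  flat := by
    intro z _ x y
    simp only [ContinuousLinearMap.comp_apply, Lam_apply, smul_mul_smul_comm]
    rw [smul_comm x y, sub_self, mul_comm x y, sub_self]

theorem holConn_X (X : Set ℂ) (hX : IsOpen X) (M : ℂ → A) (hM : DifferentiableOn ℂ M X)
    [CompleteSpace A] : (holConn X hX M hM).X = X := rfl

theorem holConn_hasDerivAt {X : Set ℂ} {hX : IsOpen X} {M : ℂ → A} {hM : DifferentiableOn ℂ M X}
    [CompleteSpace A] {p q : ℂ} (h : q ∈ (holConn X hX M hM).star p) :
    HasDerivAt (fun q => (holConn X hX M hM).tr p q) (M q * (holConn X hX M hM).tr p q) q := by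
  have h1 := (holConn X hX M hM).hasFDerivAt_tr' h
  rw [hasDerivAt_iff_hasFDerivAt]
  refine hasFDerivAt_of_restrictScalars ℝ h1 ?_
  ext
  simp [holConn]

end Pool.Agent.QC.Ode
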