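import Mathlib

/-!
# Linear ordinary differential equations in a Banach algebra

Existence (Dyson series), uniqueness (Gronwall) and invertibility of the solution of
`U' = G U`, `U 0 = 1`, for a continuous `G : ℝ → A`.
-/

set_option autoImplicit false

open Finset
open scoped Topology

namespace Pool.Agent.QC.Ode

section Bound

variable {A : Type*} [NormedAddCommGroup A] [NormedSpace ℝ A]

private theorem bound_nonneg {f f' : ℝ → A}
    (hf : ∀ t, HasDerivAt f (f' t) t) (h0 : f 0 = 0) {M T c : ℝ} (n : ℕ)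
    (hb : ∀ t, |t| ≤ T → ‖f' t‖ ≤ c * (M * ((M * |t|) ^ n / n.factorial))) {t : ℝ} (ht : 0 ≤ t)
    (htT : t ≤ T) : ‖f t‖ ≤ c * ((M * |t|) ^ (n + 1) / (n + 1).factorial) := by
  have hB : ∀ x : ℝ, HasDerivAt (fun y : ℝ => c * ((M * y) ^ (n + 1) / ((n + 1).factorial : ℝ)))
      (c * (M * ((M * x) ^ n / n.factorial))) x := by
    intro x
    have h1 : HasDerivAt (fun y : ℝ => (M * y) ^ (n + 1))
        (((n + 1 : ℕ) : ℝ) * (M * x) ^ n * (M * 1)) x :=
      ((hasDerivAt_id x).const_mul M).pow (n + 1)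
    have h2 := (h1.div_const ((n + 1).factorial : ℝ)).const_mul c
    suffices e : c * (((n + 1 : ℕ) : ℝ) * (M * x) ^ n * (M * 1) / ((n + 1).factorial : ℝ)) =
        c * (M * ((M * x) ^ n / n.factorial)) by
      rw [e] at h2
      exact h2
    have h3 : ((n + 1).factorial : ℝ) = ((n + 1 : ℕ) : ℝ) * (n.factorial : ℝ) := by
      rw [Nat.factorial_succ]; push_cast; ring
    rw [h3]
    have h4 : (n.factorial : ℝ) ≠ 0 := by positivity
    have h5 : ((n + 1 : ℕ) : ℝ) ≠ 0 := by positivity
    field_simp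
  have key := image_norm_le_of_norm_deriv_right_le_deriv_boundary (f := f) (f' := f')
    (a := 0) (b := t) (B := fun y : ℝ => c * ((M * y) ^ (n + 1) / ((n + 1).factorial : ℝ)))
    (B' := fun x => c * (M * ((M * x) ^ n / n.factorial)))
    (fun x _ => (hf x).continuousAt.continuousWithinAt)
    (fun x _ => (hf x).hasDerivWithinAt) (by simp [h0]) hB
    (fun x hx => by
      have := hb x (by rw [abs_of_nonneg hx.1]; linarith [hx.2])
      rwa [abs_of_nonneg hx.1] at this)
  have := key ⟨ht, le_refl t⟩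
  simpa [abs_of_nonneg ht] using this

private theorem bound {f f' : ℝ → A}
    (hf : ∀ t, HasDerivAt f (f' t) t) (h0 : f 0 = 0) {M T c : ℝ} (n : ℕ)
    (hb : ∀ t, |t| ≤ T → ‖f' t‖ ≤ c * (M * ((M * |t|) ^ n / n.factorial))) {t : ℝ}
    (htT : |t| ≤ T) : ‖f t‖ ≤ c * ((M * |t|) ^ (n + 1) / (n + 1).factorial) := by
  rcases le_total 0 t with ht | ht
  · exact bound_nonneg hf h0 n hb ht (by rwa [abs_of_nonneg ht] at htT)
  · have hf2 : ∀ s, HasDerivAt (fun s => f (-s)) (-(f' (-s))) s := by
      intro s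
      have h1 : HasDerivAt f (f' (-s)) (-s) := hf (-s)
      have h2 := HasDerivAt.scomp s h1 (hasDerivAt_neg s)
      rw [neg_one_smul] at h2
      exact h2
    have := bound_nonneg (f := fun s => f (-s)) (f' := fun s => -(f' (-s))) hf2 (by simpa)
      (M := M) (T := T) (c := c) n (fun s hs => by
        have := hb (-s) (by rwa [abs_neg])
        rw [abs_neg] at this
        rwa [norm_neg]) (t := -t) (by linarith) (by rwa [abs_of_nonpos ht] at htT)
    simpa using this

end Bound

variable {A : Type*} [NormedRing A] [NormedAlgebra ℝ A]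

/-- The terms of the Dyson series. -/
private noncomputable def dys (G : ℝ → A) : ℕ → ℝ → A
  | 0, _ => 1
  | n + 1, t => ∫ s in (0 : ℝ)..t, G s * dys G n s

private theorem dys_zero (G : ℝ → A) (t : ℝ) : dys G 0 t = 1 := by
  simp only [dys]

private theorem dys_succ (G : ℝ → A) (n : ℕ) (t : ℝ) :
    dys G (n + 1) t = ∫ s in (0 : ℝ)..t, G s * dys G n s := by
  simp only [dys]

variable [CompleteSpace A]

private theorem dys_cont (G : ℝ → A) (hG : Continuous G) (n : ℕ) :
    Continuous (dys G n) := by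
  induction n with
  | zero =>
    have : dys G 0 = fun _ => 1 := funext (dys_zero G)
    rw [this]
    exact continuous_const
  | succ n ih =>
    have hc : Continuous fun s => G s * dys G n s := hG.mul ih
    have : dys G (n + 1) = fun t => ∫ s in (0 : ℝ)..t, G s * dys G n s :=
      funext (dys_succ G n)
    rw [this, continuous_iff_continuousAt]
    intro t
    exact (hc.integral_hasStrictDerivAt 0 t).hasDerivAt.continuousAt

private theorem dys_deriv (G : ℝ → A) (hG : Continuous G) (n : ℕ) (t : ℝ) :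
    HasDerivAt (dys G (n + 1)) (G t * dys G n t) t := by
  have hc : Continuous fun s => G s * dys G n s := hG.mul (dys_cont G hG n)
  have : dys G (n + 1) = fun t => ∫ s in (0 : ℝ)..t, G s * dys G n s :=
    funext (dys_succ G n)
  rw [this]
  exact (hc.integral_hasStrictDerivAt 0 t).hasDerivAt

private theorem dys_le (G : ℝ → A) (hG : Continuous G) {M T : ℝ}
    (hM : ∀ t, |t| ≤ T → ‖G t‖ ≤ M) (n : ℕ) :
    ∀ t, |t| ≤ T → ‖dys G n t‖ ≤ ‖(1 : A)‖ * ((M * |t|) ^ n / n.factorial) := by
  induction n with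
  | zero =>
    intro t _
    rw [dys_zero]
    simp
  | succ n ih =>
    intro t ht
    refine bound (dys_deriv G hG n) (by rw [dys_succ]; simp) n ?_ ht
    intro s hs
    have h1 : ‖G s * dys G n s‖ ≤ ‖G s‖ * ‖dys G n s‖ := norm_mul_le _ _
    have h2 := ih s hs
    have h3 := hM s hs
    calc ‖G s * dys G n s‖ ≤ ‖G s‖ * ‖dys G n s‖ := h1
      _ ≤ M * (‖(1 : A)‖ * ((M * |s|) ^ n / n.factorial)) :=
        mul_le_mul h3 h2 (norm_nonneg _) ((norm_nonneg _).trans h3)
      _ = ‖(1 : A)‖ * (M * ((M * |s|) ^ n / n.factorial)) := by ring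

/-- Existence for a linear ODE in a Banach algebra. -/
theorem exists_sol (G : ℝ → A) (hG : Continuous G) :
    ∃ U : ℝ → A, U 0 = 1 ∧ ∀ t, HasDerivAt U (G t * U t) t := by
  refine ⟨fun t => ∑' n, dys G n t, ?_, ?_⟩
  · have h0 : ∀ n, n ≠ 0 → dys G n 0 = 0 := by
      intro n hn
      obtain ⟨m, rfl⟩ := Nat.exists_eq_succ_of_ne_zero hn
      rw [Nat.succ_eq_add_one, dys_succ]
      simp
    show ∑' n, dys G n 0 = 1
    rw [tsum_eq_single 0 (fun n hn => h0 n hn), dys_zero]
  · intro t
    set T : ℝ := |t| + 1 with hT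
    obtain ⟨M, hM⟩ : ∃ M : ℝ, ∀ s, |s| ≤ T → ‖G s‖ ≤ M := by
      obtain ⟨M, hM⟩ := (isCompact_Icc (a := -T) (b := T)).exists_bound_of_continuousOn
        hG.continuousOn
      exact ⟨M, fun s hs => hM s (abs_le.mp hs)⟩
    have hT0 : 0 ≤ T := by rw [hT]; positivity
    have hM0 : 0 ≤ M := (norm_nonneg _).trans (hM 0 (by simpa using hT0))
    have hD := dys_le G hG hM
    let g' : ℕ → ℝ → A := fun n s =>
      match n with
      | 0 => 0
      | m + 1 => G s * dys G m s
    let u : ℕ → ℝ := fun n =>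
      match n with
      | 0 => 0
      | m + 1 => M * (‖(1 : A)‖ * ((M * T) ^ m / m.factorial))
    have hu : Summable u := by
      rw [← summable_nat_add_iff 1]
      exact ((Real.summable_pow_div_factorial (M * T)).mul_left _).mul_left M
    have hg : ∀ (n : ℕ) (y : ℝ), y ∈ Set.Ioo (-T) T → HasDerivAt (dys G n) (g' n y) y := by
      intro n y _
      rcases n with _ | n
      · have : dys G 0 = fun _ => 1 := funext (dys_zero G)
        rw [this]
        exact hasDerivAt_const y _
      · exact dys_deriv G hG n y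
    have hpow : ∀ (m : ℕ) (y : ℝ), |y| ≤ T →
        ‖(1 : A)‖ * ((M * |y|) ^ m / (m.factorial : ℝ)) ≤
          ‖(1 : A)‖ * ((M * T) ^ m / m.factorial) := by
      intro m y hy
      have h1 : M * |y| ≤ M * T := mul_le_mul_of_nonneg_left hy hM0
      have h2 : (M * |y|) ^ m ≤ (M * T) ^ m := pow_le_pow_left₀ (by positivity) h1 m
      exact mul_le_mul_of_nonneg_left (div_le_div_of_nonneg_right h2 (by positivity))
        (norm_nonneg _)
    have hg' : ∀ (n : ℕ) (y : ℝ), y ∈ Set.Ioo (-T) T → ‖g' n y‖ ≤ u n := by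
      intro n y hy
      have hy' : |y| ≤ T := abs_le.mpr ⟨hy.1.le, hy.2.le⟩
      rcases n with _ | n
      · simp [g', u]
      · show ‖G y * dys G n y‖ ≤ M * (‖(1 : A)‖ * ((M * T) ^ n / n.factorial))
        calc ‖G y * dys G n y‖ ≤ ‖G y‖ * ‖dys G n y‖ := norm_mul_le _ _
          _ ≤ M * (‖(1 : A)‖ * ((M * T) ^ n / n.factorial)) :=
            mul_le_mul (hM y hy') ((hD n y hy').trans (hpow n y hy')) (norm_nonneg _) hM0
    have hsum : ∀ y, |y| ≤ T → Summable fun n => dys G n y := by
      intro y hy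
      refine Summable.of_norm_bounded
        ((Real.summable_pow_div_factorial (M * T)).mul_left ‖(1 : A)‖) ?_
      intro n
      exact (hD n y hy).trans (hpow n y hy)
    have htT : |t| ≤ T := by rw [hT]; linarith
    have htI : t ∈ Set.Ioo (-T) T := by
      have : |t| < T := by rw [hT]; linarith
      exact abs_lt.mp this
    have key := hasDerivAt_tsum_of_isPreconnected (𝕜 := ℝ) (g := dys G) (g' := g') hu
      isOpen_Ioo isPreconnected_Ioo hg hg' htI (hsum t htT) htI
    have hs' : Summable fun n => g' n t := by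
      refine Summable.of_norm_bounded hu ?_
      intro n
      exact hg' n t htI
    have e : ∑' n, g' n t = G t * ∑' n, dys G n t := by
      rw [hs'.tsum_eq_zero_add]
      show 0 + ∑' n, G t * dys G n t = G t * ∑' n, dys G n t
      rw [zero_add, ← (hsum t htT).tsum_mul_left (G t)]
    rw [e] at key
    exact key

end Pool.Agent.QC.Ode
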