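import Pool.Agent.QC.Ode.Gauge

/-!
# Local structure of the solutions at a simple pole with idempotent residue

`y' = ((s / (z - z0)) e + M(z)) y`, `e` idempotent, `s` not an integer: every solution near `z0` is
`U(z) ((1 - e) c + b(z) e c)`, `U` holomorphic, `U(z0) = 1`, `b` a branch of `(z - z0)^s`.
-/

set_option autoImplicit false

open Set Metric
open scoped Topology

namespace Pool.Agent.QC.Ode

section Gau

variable {A : Type*} [NormedRing A] [NormedAlgebra ℂ A] [CompleteSpace A]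

/-- The gauge theorem at a point. -/
theorem gauge {M : ℂ → A} {z0 : ℂ} (hM : AnalyticAt ℂ M z0) {e : A} (he : e * e = e) {s : ℂ}
    (hs : ∀ k : ℤ, (k : ℂ) ≠ s) :
    ∃ ρ : ℝ, 0 < ρ ∧ ∃ U U' V : ℂ → A, U z0 = 1 ∧ ∀ z ∈ ball z0 ρ,
      U z * V z = 1 ∧ V z * U z = 1 ∧ HasDerivAt U (U' z) z ∧
      HasDerivAt V (-(V z * U' z * V z)) z ∧
      (z - z0) • U' z = s • (e * U z - U z * e) + (z - z0) • (M z * U z) := by
  obtain ⟨p, r, hp⟩ := hM
  obtain ⟨r', hr'0, hr'⟩ : ∃ r' : NNReal, 0 < r' ∧ (r' : ENNReal) < r := by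
    obtain ⟨r', h1, h2⟩ := ENNReal.lt_iff_exists_nnreal_btwn.mp hp.r_pos
    exact ⟨r', by exact_mod_cast h1, h2⟩
  obtain ⟨C, hC, hpC⟩ := p.norm_mul_pow_le_of_lt_radius (hr'.trans_le hp.r_le)
  have hr'1 : (0 : ℝ) < r' := by exact_mod_cast hr'0
  have hb : ∀ k, ‖p.coeff k‖ ≤ C * (1 / (r' : ℝ)) ^ k := by
    intro k
    rw [← FormalMultilinearSeries.norm_apply_eq_norm_coef, one_div, inv_pow, ← div_eq_mul_inv,
      le_div_iff₀ (by positivity)]
    exact hpC k
  obtain ⟨ρ, hρ, hρA, U, U', hU0, hU⟩ := gauge0 he hs hC (by positivity) hb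
  have hρr : ρ < r' := by
    rw [one_div, ← div_eq_mul_inv, div_lt_one hr'1] at hρA
    exact hρA
  have hUc : ContinuousAt U 0 := (hU 0 (mem_ball_self hρ)).1.continuousAt
  have hev : ∀ᶠ z in 𝓝 (0 : ℂ), IsUnit (U z) := by
    have h1 : {x : A | IsUnit x} ∈ 𝓝 (U 0) := by
      rw [hU0]; exact Units.nhds (1 : Aˣ)
    exact hUc h1
  obtain ⟨δ, hδ, hδU⟩ := Metric.eventually_nhds_iff_ball.mp hev
  refine ⟨min ρ δ, lt_min hρ hδ, fun z => U (z - z0), fun z => U' (z - z0),
    fun z => Ring.inverse (U (z - z0)), by simpa using hU0, fun z hz => ?_⟩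
  have hz1 : z - z0 ∈ ball (0 : ℂ) ρ := by
    rw [mem_ball_zero_iff, ← dist_eq_norm]; exact (mem_ball.mp hz).trans_le (min_le_left _ _)
  have hz2 : z - z0 ∈ ball (0 : ℂ) δ := by
    rw [mem_ball_zero_iff, ← dist_eq_norm]; exact (mem_ball.mp hz).trans_le (min_le_right _ _)
  obtain ⟨h1, h2⟩ := hU _ hz1
  have hu := hδU _ hz2
  have hd : HasDerivAt (fun z => U (z - z0)) (U' (z - z0)) z := h1.comp_sub_const z z0
  refine ⟨Ring.mul_inverse_cancel _ hu, Ring.inverse_mul_cancel _ hu, hd, ?_, ?_⟩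
  · show HasDerivAt (fun z => Ring.inverse (U (z - z0)))
      (-(Ring.inverse (U (z - z0)) * U' (z - z0) * Ring.inverse (U (z - z0)))) z
    obtain ⟨u, hu'⟩ := hu
    have h3 := hasFDerivAt_ringInverse (𝕜 := ℂ) u
    rw [hu'] at h3
    have h4 := h3.comp_hasDerivAt z hd
    have e1 : Ring.inverse (U (z - z0)) = ↑u⁻¹ := by rw [← hu', Ring.inverse_unit]
    rw [e1]
    have h5 : (-((ContinuousLinearMap.mulLeftRight ℂ A) ↑u⁻¹) ↑u⁻¹) (U' (z - z0)) =
        -(↑u⁻¹ * U' (z - z0) * ↑u⁻¹) := by simp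
    rw [h5] at h4
    exact h4
  · rw [h2]
    congr 2
    have hz3 : z ∈ Metric.eball z0 r := by
      have h3 : edist z z0 < (r' : ENNReal) := by
        rw [edist_lt_coe, ← NNReal.coe_lt_coe, coe_nndist]
        exact ((mem_ball.mp hz).trans_le (min_le_left _ _)).trans hρr
      exact h3.trans hr'
    have h6 := hp.hasSum_sub hz3
    have h7 : (fun n => (p n) fun _ => z - z0) = fun n => (z - z0) ^ n • p.coeff n := by
      funext n; exact FormalMultilinearSeries.apply_eq_pow_smul_coeff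
    rw [h7] at h6
    rw [h6.tsum_eq]

end Gau

variable {E : Type*} [NormedAddCommGroup E] [NormedSpace ℂ E]

/-- `y` solves `y' = N y` on `G`. -/
def IsSol (N : ℂ → E →L[ℂ] E) (G : Set ℂ) (y : ℂ → E) : Prop :=
  ∀ z ∈ G, HasDerivAt y (N z (y z)) z

variable [CompleteSpace E]

/-- The gauge theorem for solutions: `y` is a solution iff `V y` solves `Y' = (s / (z - z0)) e Y`. -/
theorem gauge_sol {M : ℂ → E →L[ℂ] E} {z0 : ℂ} (hM : AnalyticAt ℂ M z0) {e : E →L[ℂ] E}
    (he : e * e = e) {s : ℂ} (hs : ∀ k : ℤ, (k : ℂ) ≠ s) :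
    ∃ ρ : ℝ, 0 < ρ ∧ ∃ U V : ℂ → E →L[ℂ] E, U z0 = 1 ∧ DifferentiableOn ℂ U (ball z0 ρ) ∧
      DifferentiableOn ℂ V (ball z0 ρ) ∧ (∀ z ∈ ball z0 ρ, U z * V z = 1 ∧ V z * U z = 1) ∧
      ∀ z ∈ ball z0 ρ, z ≠ z0 → ∀ y : ℂ → E,
        HasDerivAt y (((s / (z - z0)) • e + M z) (y z)) z ↔
          HasDerivAt (fun z => V z (y z)) ((s / (z - z0)) • e (V z (y z))) z := by
  obtain ⟨ρ, hρ, U, U', V, hU0, h⟩ := gauge hM he hs
  refine ⟨ρ, hρ, U, V, hU0, fun z hz => (h z hz).2.2.1.differentiableAt.differentiableWithinAt,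
    fun z hz => (h z hz).2.2.2.1.differentiableAt.differentiableWithinAt,
    fun z hz => ⟨(h z hz).1, (h z hz).2.1⟩, fun z hz hz0 y => ?_⟩
  obtain ⟨g1, g2, g3, g4, g5⟩ := h z hz
  have hne : z - z0 ≠ 0 := sub_ne_zero.mpr hz0
  have hU' : U' z = (s / (z - z0)) • (e * U z - U z * e) + M z * U z := by
    have h2 := congrArg (fun x => (z - z0)⁻¹ • x) g5
    simp only [smul_add, smul_smul] at h2
    rw [inv_mul_cancel₀ hne, one_smul, one_smul] at h2
    rw [h2, div_eq_inv_mul]
  constructor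
  · intro hy
    have h1 := g4.clm_apply hy
    have h2 : -(V z * U' z * V z) + V z * ((s / (z - z0)) • e + M z) =
        (s / (z - z0)) • (e * V z) := by
      rw [hU']
      have a1 : V z * ((s / (z - z0)) • (e * U z - U z * e) + M z * U z) * V z =
          (s / (z - z0)) • (V z * e * (U z * V z) - V z * U z * e * V z) +
            V z * M z * (U z * V z) := by
        simp only [mul_add, add_mul, mul_smul_comm, smul_mul_assoc, mul_sub, sub_mul,
          mul_assoc]
      rw [a1, g1, g2, mul_one, one_mul, mul_one, mul_add, mul_smul_comm, smul_sub]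
      abel
    have h3 := congrArg (fun f : E →L[ℂ] E => f (y z)) h2
    have h4 : (-(V z * U' z * V z)) (y z) + (V z) (((s / (z - z0)) • e + M z) (y z)) =
        (s / (z - z0)) • e (V z (y z)) := h3
    rw [h4] at h1
    exact h1
  · intro hy
    have h1 := g3.clm_apply hy
    have hUV : ∀ w ∈ ball z0 ρ, U w (V w (y w)) = y w := fun w hw => by
      have := congrArg (fun f : E →L[ℂ] E => f (y w)) (h w hw).1
      exact this
    have h3 : (U' z) (V z (y z)) + (U z) ((s / (z - z0)) • e (V z (y z))) =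
        ((s / (z - z0)) • e + M z) (y z) := by
      have hz1 := hUV z hz
      rw [hU']
      generalize V z (y z) = Y at hz1 ⊢
      have d2 : ((s / (z - z0)) • (e * U z - U z * e) + M z * U z) Y =
          (s / (z - z0)) • (e (U z Y) - U z (e Y)) + M z (U z Y) := rfl
      rw [d2, ← hz1]
      have d3 : ((s / (z - z0)) • e + M z) (U z Y) =
          (s / (z - z0)) • e (U z Y) + M z (U z Y) := rfl
      rw [d3, map_smul, smul_sub]
      abel
    rw [h3] at h1
    refine h1.congr_of_eventuallyEq ?_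
    filter_upwards [isOpen_ball.mem_nhds hz] with w hw using (hUV w hw).symm

omit [CompleteSpace E] in
/-- A solution of `Y' = (s / (z - z0)) e Y` on an open preconnected set with a branch of
`(z - z0)^s`. -/
theorem euler_sol {e : E →L[ℂ] E} (he : e * e = e) {s z0 : ℂ} {G : Set ℂ} {b : ℂ → ℂ}
    (hG : IsOpen G) (hGc : IsPreconnected G) (hz0 : z0 ∉ G)
    (hb : ∀ z ∈ G, HasDerivAt b (s / (z - z0) * b z) z) (hb0 : ∀ z ∈ G, b z ≠ 0) (Y : ℂ → E) :
    (∀ z ∈ G, HasDerivAt Y ((s / (z - z0)) • e (Y z)) z) ↔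
      ∃ c : E, ∀ z ∈ G, Y z = (1 - e) c + b z • e c := by
  have hee : ∀ x, e (e x) = e x := fun x => by
    have h1 := congrArg (fun f : E →L[ℂ] E => f x) he
    exact h1
  have hne : ∀ z ∈ G, z - z0 ≠ 0 := fun z hz h0 => hz0 (by rwa [sub_eq_zero.mp h0] at hz)
  constructor
  · intro hyt
    set F : ℂ → E := fun z => (1 - e) (Y z) + (b z)⁻¹ • e (Y z) with hF
    have hFd : ∀ z ∈ G, HasDerivAt F 0 z := by
      intro z hz
      have h1 : HasDerivAt (fun z => (1 - e) (Y z)) ((1 - e) ((s / (z - z0)) • e (Y z))) z :=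
        (1 - e).hasFDerivAt.comp_hasDerivAt z (hyt z hz)
      have h2 : HasDerivAt (fun z => e (Y z)) (e ((s / (z - z0)) • e (Y z))) z :=
        e.hasFDerivAt.comp_hasDerivAt z (hyt z hz)
      have h3 := (hb z hz).inv (hb0 z hz)
      have h4 : HasDerivAt F ((1 - e) ((s / (z - z0)) • e (Y z)) +
          ((b z)⁻¹ • e ((s / (z - z0)) • e (Y z)) +
            (-(s / (z - z0) * b z) / b z ^ 2) • e (Y z))) z := h1.add (h3.smul h2)
      have h5 : (1 - e) ((s / (z - z0)) • e (Y z)) +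
          ((b z)⁻¹ • e ((s / (z - z0)) • e (Y z)) +
            (-(s / (z - z0) * b z) / b z ^ 2) • e (Y z)) = 0 := by
        have b1 : (1 - e) ((s / (z - z0)) • e (Y z)) = 0 := by
          rw [map_smul, sub_apply, hee]
          simp
        rw [b1, zero_add, map_smul, hee, smul_smul, ← add_smul]
        have b2 : (b z)⁻¹ * (s / (z - z0)) + -(s / (z - z0) * b z) / b z ^ 2 = 0 := by
          have := hb0 z hz
          have := hne z hz
          field_simp
          ring
        rw [b2, zero_smul]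
      rw [h5] at h4
      exact h4
    rcases G.eq_empty_or_nonempty with h0 | ⟨z1, hz1⟩
    · exact ⟨0, fun z hz => by rw [h0] at hz; exact hz.elim⟩
    refine ⟨F z1, fun z hz => ?_⟩
    have hFc : F z = F z1 := by
      refine hG.is_const_of_deriv_eq_zero hGc
        (fun w hw => (hFd w hw).differentiableAt.differentiableWithinAt)
        (fun w hw => (hFd w hw).deriv) hz hz1
    rw [← hFc]
    have c1 : e (F z) = (b z)⁻¹ • e (Y z) := by
      simp only [hF, map_add, map_smul, hee]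
      rw [sub_apply, map_sub, hee]
      simp
    have c2 : (1 - e) (F z) = (1 - e) (Y z) := by
      have : (1 - e) (F z) = F z - e (F z) := by rw [sub_apply]; rfl
      rw [this, c1]
      simp only [hF]
      abel
    rw [c2, c1, smul_smul, mul_inv_cancel₀ (hb0 z hz), one_smul, sub_apply]
    show Y z = Y z - e (Y z) + e (Y z)
    rw [sub_add_cancel]
  · rintro ⟨c, hc⟩ z hz
    have h1 : HasDerivAt (fun z => (1 - e) c + b z • e c) ((s / (z - z0) * b z) • e c) z :=
      ((hb z hz).smul_const (e c)).const_add _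
    have d1 : e (Y z) = b z • e c := by
      rw [hc z hz, map_add, map_smul, hee, sub_apply, map_sub, hee]
      simp
    rw [d1, smul_smul]
    refine h1.congr_of_eventuallyEq ?_
    filter_upwards [hG.mem_nhds hz] with w hw using hc w hw

omit [CompleteSpace E] in
/-- A solution of `Y' = (s / (z - z0)) e Y` on a punctured ball is constant, `e Y = 0`. -/
theorem euler_ball {e : E →L[ℂ] E} (he : e * e = e) {s z0 : ℂ} (hs : ∀ k : ℤ, (k : ℂ) ≠ s)
    {ρ : ℝ} (hρ : 0 < ρ) {Y : ℂ → E}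
    (hY : ∀ z ∈ ball z0 ρ, z ≠ z0 → HasDerivAt Y ((s / (z - z0)) • e (Y z)) z) :
    ∃ c : E, e c = 0 ∧ ∀ z ∈ ball z0 ρ, z ≠ z0 → Y z = c := by
  have hee : ∀ x, e (e x) = e x := fun x => by
    have h1 := congrArg (fun f : E →L[ℂ] E => f x) he
    exact h1
  set φ : ℂ → ℂ := fun w => z0 + Complex.exp w with hφ
  set W : Set ℂ := {w | w.re < Real.log ρ} with hW
  have hWo : IsOpen W := isOpen_lt Complex.continuous_re continuous_const
  have hWc : IsPreconnected W := (convex_halfSpace_re_lt (Real.log ρ)).isPreconnected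
  have hφm : ∀ w ∈ W, φ w ∈ ball z0 ρ := by
    intro w hw
    rw [mem_ball, dist_eq_norm, hφ]
    simp only [add_sub_cancel_left, Complex.norm_exp]
    rw [← Real.exp_log hρ]
    exact Real.exp_lt_exp.mpr hw
  have hφ0 : ∀ w, φ w ≠ z0 := by
    intro w h
    have h1 : Complex.exp w = 0 := by
      have h2 : z0 + Complex.exp w = z0 := h
      exact add_eq_left.mp h2
    exact Complex.exp_ne_zero w h1
  have hd : ∀ w ∈ W, HasDerivAt (fun w => Y (φ w)) (s • e (Y (φ w))) w := by
    intro w hw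
    have h1 : HasDerivAt φ (Complex.exp w) w := (Complex.hasDerivAt_exp w).const_add z0
    have h2 := (hY (φ w) (hφm w hw) (hφ0 w)).scomp w h1
    have h3 : Complex.exp w • (s / (φ w - z0)) • e (Y (φ w)) = s • e (Y (φ w)) := by
      rw [smul_smul]
      congr 1
      have h4 : φ w - z0 = Complex.exp w := by simp [hφ]
      rw [h4]
      field_simp [Complex.exp_ne_zero w]
    rw [h3] at h2
    exact h2
  set F : ℂ → E := fun w => (1 - e) (Y (φ w)) + Complex.exp (-(s * w)) • e (Y (φ w)) with hF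
  have hFd : ∀ w ∈ W, HasDerivAt F 0 w := by
    intro w hw
    have h1 : HasDerivAt (fun w => (1 - e) (Y (φ w))) ((1 - e) (s • e (Y (φ w)))) w :=
      (1 - e).hasFDerivAt.comp_hasDerivAt w (hd w hw)
    have h2 : HasDerivAt (fun w => e (Y (φ w))) (e (s • e (Y (φ w)))) w :=
      e.hasFDerivAt.comp_hasDerivAt w (hd w hw)
    have h3 : HasDerivAt (fun w => Complex.exp (-(s * w))) (Complex.exp (-(s * w)) * (-s)) w := by
      have h30 := (((hasDerivAt_id w).const_mul s).neg).cexp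
      rw [mul_one] at h30
      exact h30
    have h4 : HasDerivAt F ((1 - e) (s • e (Y (φ w))) +
        (Complex.exp (-(s * w)) • e (s • e (Y (φ w))) +
          (Complex.exp (-(s * w)) * (-s)) • e (Y (φ w)))) w := h1.add (h3.smul h2)
    have h5 : (1 - e) (s • e (Y (φ w))) +
        (Complex.exp (-(s * w)) • e (s • e (Y (φ w))) +
          (Complex.exp (-(s * w)) * (-s)) • e (Y (φ w))) = 0 := by
      have b1 : (1 - e) (s • e (Y (φ w))) = 0 := by
        rw [map_smul, sub_apply, hee]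
        simp
      rw [b1, zero_add, map_smul, hee, smul_smul, ← add_smul]
      have b2 : Complex.exp (-(s * w)) * s + Complex.exp (-(s * w)) * (-s) = 0 := by ring
      rw [b2, zero_smul]
    rw [h5] at h4
    exact h4
  obtain ⟨c, hc⟩ : ∃ c, ∀ w ∈ W, F w = c := by
    have hw1 : ((Real.log ρ - 1 : ℝ) : ℂ) ∈ W := by
      show ((Real.log ρ - 1 : ℝ) : ℂ).re < Real.log ρ
      rw [Complex.ofReal_re]; linarith
    exact ⟨F _, fun w hw => hWo.is_const_of_deriv_eq_zero hWc
        (fun w hw => (hFd w hw).differentiableAt.differentiableWithinAt)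
        (fun w hw => (hFd w hw).deriv) hw hw1⟩
  have hYc : ∀ w ∈ W, Y (φ w) = (1 - e) c + Complex.exp (s * w) • e c := by
    intro w hw
    rw [← hc w hw]
    have c1 : e (F w) = Complex.exp (-(s * w)) • e (Y (φ w)) := by
      simp only [hF, map_add, map_smul, hee]
      rw [sub_apply, map_sub, hee]
      simp
    have c2 : (1 - e) (F w) = (1 - e) (Y (φ w)) := by
      have : (1 - e) (F w) = F w - e (F w) := by rw [sub_apply]; rfl
      rw [this, c1]
      simp only [hF]
      abel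
    rw [c2, c1, smul_smul, ← Complex.exp_add, add_neg_cancel, Complex.exp_zero, one_smul,
      sub_apply]
    show Y (φ w) = Y (φ w) - e (Y (φ w)) + e (Y (φ w))
    rw [sub_add_cancel]
  have hec : e c = 0 := by
    set w1 : ℂ := ((Real.log ρ - 1 : ℝ) : ℂ) with hw1d
    have hw1 : w1 ∈ W := by
      show ((Real.log ρ - 1 : ℝ) : ℂ).re < Real.log ρ
      rw [Complex.ofReal_re]; linarith
    have hw2 : w1 + 2 * Real.pi * Complex.I ∈ W := by
      show (w1 + 2 * Real.pi * Complex.I).re < Real.log ρ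
      have : (w1 + 2 * Real.pi * Complex.I).re = w1.re := by simp
      rw [this]; exact hw1
    have hφp : φ (w1 + 2 * Real.pi * Complex.I) = φ w1 := by
      simp only [hφ]
      rw [Complex.exp_add, Complex.exp_two_pi_mul_I, mul_one]
    have h1 := hYc _ hw1
    have h2 := hYc _ hw2
    rw [hφp, h1] at h2
    have h3 : (Complex.exp (s * (w1 + 2 * Real.pi * Complex.I)) - Complex.exp (s * w1)) • e c =
        0 := by
      rw [sub_smul, sub_eq_zero]
      exact (add_left_cancel h2).symm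
    rcases smul_eq_zero.mp h3 with h4 | h4
    · exfalso
      have h5 : Complex.exp (s * (w1 + 2 * Real.pi * Complex.I)) =
          Complex.exp (s * w1) * Complex.exp (s * (2 * Real.pi * Complex.I)) := by
        rw [← Complex.exp_add]; congr 1; ring
      rw [h5, sub_eq_zero] at h4
      have h6 : Complex.exp (s * (2 * Real.pi * Complex.I)) = 1 :=
        mul_left_cancel₀ (Complex.exp_ne_zero (s * w1)) (by rw [h4, mul_one])
      obtain ⟨n, hn⟩ := Complex.exp_eq_one_iff.mp h6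
      have h7 : (2 * Real.pi * Complex.I : ℂ) ≠ 0 := Complex.two_pi_I_ne_zero
      exact hs n (mul_right_cancel₀ h7 hn.symm)
    · exact h4
  refine ⟨c, hec, fun z hz hz0 => ?_⟩
  have hne : z - z0 ≠ 0 := sub_ne_zero.mpr hz0
  have h1 : Complex.log (z - z0) ∈ W := by
    show (Complex.log (z - z0)).re < Real.log ρ
    rw [Complex.log_re]
    refine Real.log_lt_log (norm_pos_iff.mpr hne) ?_
    rwa [← dist_eq_norm]
  have h2 := hYc _ h1
  have h3 : φ (Complex.log (z - z0)) = z := by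
    simp only [hφ]; rw [Complex.exp_log hne]; ring
  rw [h3, hec, smul_zero, add_zero, sub_apply, hec, sub_zero] at h2
  exact h2

/-- The local structure theorem. -/
theorem loc_struct {M : ℂ → E →L[ℂ] E} {z0 : ℂ} (hM : AnalyticAt ℂ M z0) {e : E →L[ℂ] E}
    (he : e * e = e) {s : ℂ} (hs : ∀ k : ℤ, (k : ℂ) ≠ s) :
    ∃ ρ : ℝ, 0 < ρ ∧ ∃ U : ℂ → E →L[ℂ] E, U z0 = 1 ∧ DifferentiableOn ℂ U (ball z0 ρ) ∧
      (∀ z ∈ ball z0 ρ, Function.Injective (U z)) ∧
      (∀ (G : Set ℂ) (b : ℂ → ℂ), IsOpen G → IsPreconnected G → G ⊆ ball z0 ρ → z0 ∉ G →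
        (∀ z ∈ G, HasDerivAt b (s / (z - z0) * b z) z) → (∀ z ∈ G, b z ≠ 0) →
        ∀ y : ℂ → E, IsSol (fun z => (s / (z - z0)) • e + M z) G y ↔
          ∃ c : E, ∀ z ∈ G, y z = U z ((1 - e) c + b z • e c)) ∧
      (∀ r : ℝ, 0 < r → r ≤ ρ → ∀ y : ℂ → E,
        IsSol (fun z => (s / (z - z0)) • e + M z) (ball z0 r \ {z0}) y ↔
          ∃ c : E, e c = 0 ∧ ∀ z ∈ ball z0 r, z ≠ z0 → y z = U z c) := by
  obtain ⟨ρ, hρ, U, V, hU0, hUd, hVd, hUV, h⟩ := gauge_sol hM he hs
  have hUV' : ∀ z ∈ ball z0 ρ, ∀ x, U z (V z x) = x := fun z hz x =>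
    congrArg (fun f : E →L[ℂ] E => f x) (hUV z hz).1
  have hVU' : ∀ z ∈ ball z0 ρ, ∀ x, V z (U z x) = x := fun z hz x =>
    congrArg (fun f : E →L[ℂ] E => f x) (hUV z hz).2
  refine ⟨ρ, hρ, U, hU0, hUd, fun z hz x x' hx => ?_, ?_, ?_⟩
  · rw [← hVU' z hz x, ← hVU' z hz x', hx]
  · intro G b hG hGc hGρ hz0 hb hb0 y
    have hne : ∀ z ∈ G, z ≠ z0 := fun z hz h0 => hz0 (by rwa [h0] at hz)
    have h1 : IsSol (fun z => (s / (z - z0)) • e + M z) G y ↔
        ∀ z ∈ G, HasDerivAt (fun z => V z (y z)) ((s / (z - z0)) • e (V z (y z))) z :=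
      forall₂_congr fun z hz => h z (hGρ hz) (hne z hz) y
    rw [h1, euler_sol he hG hGc hz0 hb hb0]
    refine exists_congr fun c => forall₂_congr fun z hz => ⟨fun h2 => ?_, fun h2 => ?_⟩
    · rw [← h2, hUV' z (hGρ hz)]
    · rw [h2, hVU' z (hGρ hz)]
  · intro r hr hrρ y
    have h1 : IsSol (fun z => (s / (z - z0)) • e + M z) (ball z0 r \ {z0}) y ↔
        ∀ z ∈ ball z0 r \ {z0},
          HasDerivAt (fun z => V z (y z)) ((s / (z - z0)) • e (V z (y z))) z :=
      forall₂_congr fun z hz => h z (ball_subset_ball hrρ hz.1) hz.2 y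
    rw [h1]
    constructor
    · intro h2
      obtain ⟨c, hc0, hc⟩ := euler_ball he hs hr (Y := fun z => V z (y z))
        (fun z hz hz0 => h2 z ⟨hz, hz0⟩)
      exact ⟨c, hc0, fun z hz hz0 => by rw [← hc z hz hz0, hUV' z (ball_subset_ball hrρ hz)]⟩
    · rintro ⟨c, hc0, hc⟩ z hz
      have h2 : ∀ w ∈ ball z0 r \ {z0}, V w (y w) = c := fun w hw => by
        rw [hc w hw.1 hw.2, hVU' w (ball_subset_ball hrρ hw.1)]
      rw [h2 z hz, hc0, smul_zero]
      refine (hasDerivAt_const z c).congr_of_eventuallyEq ?_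
      filter_upwards [(isOpen_ball.sdiff isClosed_singleton).mem_nhds hz] with w hw using h2 w hw

end Pool.Agent.QC.Ode
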