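import Pool.Agent.QC.Ode.Flat

/-!
# Composition rules for the transport of a flat connection

`tr_self`, `tri` (triangle lemma), `tr_comp` (composition on a segment), `tr_inv`, solutions along
curves, vector valued versions for `A = E →L[ℂ] E`.
-/

set_option autoImplicit false

open Set Metric
open scoped Topology

namespace Pool.Agent.QC.Ode

namespace FlatConn

variable {P A : Type*} [NormedAddCommGroup P] [NormedSpace ℝ P] [NormedRing A]
    [NormedAlgebra ℝ A] (C : FlatConn P A)

/-- The star of `p`: all points which are visible from `p` inside the domain. -/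
def star (p : P) : Set P := {q | segment ℝ p q ⊆ C.X}

theorem star_open (p : P) : IsOpen (C.star p) := by
  rw [isOpen_iff_mem_nhds]
  intro q hq
  obtain ⟨δ, hδ, hth⟩ := (seg_compact p q).exists_thickening_subset_open C.isOpen hq
  filter_upwards [Metric.ball_mem_nhds q hδ] with r hr
  intro x hx
  rw [segment_eq_image'] at hx
  obtain ⟨t, ht, rfl⟩ := hx
  apply hth
  rw [Metric.mem_thickening_iff]
  refine ⟨ln p q t, ln_mem ht, ?_⟩
  have e : dist (p + t • (r - p)) (ln p q t) = ‖t • (r - q)‖ := by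
    rw [dist_eq_norm]; congr 1; simp only [ln]; module
  show dist (p + t • (r - p)) (ln p q t) < δ
  rw [e, norm_smul, Real.norm_of_nonneg ht.1]
  rw [Metric.mem_ball, dist_eq_norm] at hr
  nlinarith [norm_nonneg (r - q), ht.2]

theorem mem_star_self {p : P} (hp : p ∈ C.X) : p ∈ C.star p := by
  intro x hx
  rw [segment_same] at hx
  rw [mem_singleton_iff.mp hx]; exact hp

theorem star_sub (p : P) : C.star p ⊆ C.X := fun q hq => hq (right_mem_segment ℝ p q)

theorem ball_sub_star {p : P} {δ : ℝ} (h : Metric.ball p δ ⊆ C.X) : Metric.ball p δ ⊆ C.star p := by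
  intro q hq
  by_cases hδ : 0 < δ
  · exact ((convex_ball p δ).segment_subset (Metric.mem_ball_self hδ) hq).trans h
  · rw [Metric.ball_eq_empty.mpr (not_lt.mp hδ)] at hq
    exact hq.elim

variable [CompleteSpace A]

/-- The identity transport. -/
theorem tr_self (p : P) (hp : p ∈ C.X) : C.tr p p = 1 := by
  have h : segment ℝ p p ⊆ C.X := C.mem_star_self hp
  have h1 := C.sol_unique h (V := fun _ => (1 : A)) (t := 1) (fun t _ => by
    simp only [sub_self, map_zero, zero_mul]
    exact hasDerivAt_const t _) ⟨zero_le_one, le_rfl⟩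
  rw [mul_one] at h1
  exact h1.symm

theorem hasFDerivAt_tr' {p q : P} (h : q ∈ C.star p) :
    HasFDerivAt (fun q => C.tr p q)
      (((ContinuousLinearMap.mul ℝ A).flip (C.tr p q)).comp (C.w q)) q :=
  C.hasFDerivAt_tr h

theorem tr_cont {p : P} : ContinuousOn (fun q => C.tr p q) (C.star p) :=
  fun _ h => (C.hasFDerivAt_tr' h).continuousAt.continuousWithinAt

/-- The triangle lemma. -/
theorem tri {p q r : P} (h : ∀ t ∈ Icc (0 : ℝ) 1, segment ℝ p (ln q r t) ⊆ C.X) :
    C.tr q r * C.tr p q = C.tr p r := by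
  have hqr : segment ℝ q r ⊆ C.X := by
    rw [segment_eq_image']
    rintro _ ⟨t, ht, rfl⟩
    exact C.star_sub p (h t ht)
  have h1 := C.sol_unique hqr (V := fun t => C.tr p (ln q r t)) (t := 1) (fun t ht => by
    have h0 : HasDerivAt (ln q r) (r - q) t := by
      have h00 := ((hasDerivAt_id t).smul_const (r - q)).const_add q
      rw [one_smul] at h00
      exact h00
    exact (C.hasFDerivAt_tr (h t ht)).comp_hasDerivAt t h0) ⟨zero_le_one, le_rfl⟩
  simp only [ln_one, ln_zero] at h1
  exact h1.symm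

theorem tri_convex {p q r : P} {S : Set P} (hS : Convex ℝ S) (hX : S ⊆ C.X) (hp : p ∈ S)
    (hq : q ∈ S) (hr : r ∈ S) : C.tr q r * C.tr p q = C.tr p r := by
  refine C.tri fun t ht => ?_
  exact (hS.segment_subset hp (hS.segment_subset hq hr (ln_mem ht))).trans hX

/-- Composition on a segment. -/
theorem tr_comp {p q r : P} (h : segment ℝ p r ⊆ C.X) (hq : q ∈ segment ℝ p r) :
    C.tr q r * C.tr p q = C.tr p r :=
  C.tri_convex (convex_segment p r) h (left_mem_segment ℝ p r) hq (right_mem_segment ℝ p r)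

/-- The inverse transport. -/
theorem tr_inv {p q : P} (h : segment ℝ p q ⊆ C.X) : C.tr q p * C.tr p q = 1 := by
  rw [C.tri_convex (convex_segment p q) h (left_mem_segment ℝ p q) (right_mem_segment ℝ p q)
    (left_mem_segment ℝ p q), C.tr_self p (h (left_mem_segment ℝ p q))]

theorem tr_inv' {p q : P} (h : segment ℝ p q ⊆ C.X) : C.tr p q * C.tr q p = 1 :=
  C.tr_inv (by rwa [segment_symm])

/-- The four sides of a quadrilateral `p, q, r, s` with convex hull in the domain. -/
theorem quad {p q r s : P} {S : Set P} (hS : Convex ℝ S) (hX : S ⊆ C.X) (hp : p ∈ S)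
    (hq : q ∈ S) (hr : r ∈ S) (hs : s ∈ S) :
    C.tr q r * C.tr p q = C.tr s r * C.tr p s := by
  rw [C.tri_convex hS hX hp hq hr, C.tri_convex hS hX hp hs hr]

/-- A solution of a linear ODE on a real interval with continuous coefficients which vanishes at
one point is zero. -/
theorem lin_zero {B : Type*} [NormedAddCommGroup B] [NormedSpace ℝ B] {g : ℝ → B →L[ℝ] B}
    {a b : ℝ} (hg : ContinuousOn g (Icc a b)) {y : ℝ → B}
    (hy : ∀ t ∈ Icc a b, HasDerivWithinAt y (g t (y t)) (Icc a b) t) {s : ℝ}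
    (hs : s ∈ Icc a b) (h0 : y s = 0) : ∀ t ∈ Icc a b, y t = 0 := by
  obtain ⟨M, hM⟩ : ∃ M, ∀ x ∈ Icc a b, ‖g x‖ ≤ M :=
    @IsCompact.exists_bound_of_continuousOn ℝ (B →L[ℝ] B) _ _ _ isCompact_Icc _ hg
  have hM0 : 0 ≤ M := (norm_nonneg _).trans (hM s hs)
  have hL : ∀ t ∈ Icc a b, LipschitzOnWith ⟨M, hM0⟩ (fun x => g t x) univ := by
    intro t ht
    refine LipschitzOnWith.of_dist_le_mul ?_
    intro x _ z _
    rw [dist_eq_norm, dist_eq_norm, ← map_sub]
    exact ((g t).le_opNorm _).trans (mul_le_mul_of_nonneg_right (hM t ht) (norm_nonneg _))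
  have hc : ContinuousOn y (Icc a b) := fun t ht => (hy t ht).continuousWithinAt
  intro t ht
  rcases le_total s t with h | h
  · have := ODE_solution_unique_of_mem_Icc_right (v := fun t x => g t x) (s := fun _ => univ)
      (K := ⟨M, hM0⟩) (f := y) (g := fun _ => 0) (a := s) (b := b)
      (fun t ht => hL t ⟨hs.1.trans ht.1, ht.2.le⟩)
      (hc.mono (Icc_subset_Icc_left hs.1))
      (fun t ht => (hy t ⟨hs.1.trans ht.1, ht.2.le⟩).mono_of_mem_nhdsWithin
        (Icc_mem_nhdsGE_of_mem ⟨hs.1.trans ht.1, ht.2⟩)) (fun _ _ => mem_univ _)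
      continuousOn_const (fun t _ => by simpa using hasDerivWithinAt_const t _ (0 : B))
      (fun _ _ => mem_univ _) h0
    exact this ⟨h, ht.2⟩
  · have := ODE_solution_unique_of_mem_Icc_left (v := fun t x => g t x) (s := fun _ => univ)
      (K := ⟨M, hM0⟩) (f := y) (g := fun _ => 0) (a := a) (b := s)
      (fun t ht => hL t ⟨ht.1.le, ht.2.trans hs.2⟩)
      (hc.mono (Icc_subset_Icc_right hs.2))
      (fun t ht => (hy t ⟨ht.1.le, ht.2.trans hs.2⟩).mono_of_mem_nhdsWithin
        (Icc_mem_nhdsLE_of_mem ⟨ht.1, ht.2.trans hs.2⟩)) (fun _ _ => mem_univ _)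
      continuousOn_const (fun t _ => by simpa using hasDerivWithinAt_const t _ (0 : B))
      (fun _ _ => mem_univ _) h0
    exact this ⟨ht.1, h⟩

end FlatConn

end Pool.Agent.QC.Ode
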