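import Pool.Agent.QC.Ode.Holo
import Pool.Agent.QC.Ode.Pole

/-!
# Vector valued flat sections

`A = E →L[ℂ] E`. A solution along a segment is the transport of its initial value; uniqueness on
preconnected open sets for the holomorphic equation `y' = N(z) y`.
-/

set_option autoImplicit false

open Set Metric
open scoped Topology

namespace Pool.Agent.QC.Ode

variable {E : Type*} [NormedAddCommGroup E] [NormedSpace ℂ E] [CompleteSpace E]

namespace FlatConn

variable {P : Type*} [NormedAddCommGroup P] [NormedSpace ℝ P] (C : FlatConn P (E →L[ℂ] E))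

theorem sol_unique_vec {p q : P} (h : segment ℝ p q ⊆ C.X) {y : ℝ → E}
    (hy : ∀ t ∈ Icc (0 : ℝ) 1, HasDerivWithinAt y (C.w (ln p q t) (q - p) (y t)) (Icc 0 1) t)
    {t : ℝ} (ht : t ∈ Icc (0 : ℝ) 1) : y t = C.U p q t (y 0) := by
  have hg : Continuous fun t => (C.G p q t).restrictScalars ℝ :=
    (ContinuousLinearMap.restrictScalarsL ℂ E E ℝ ℝ).continuous.comp (C.G_cont h)
  have key := lin_zero (g := fun t => (C.G p q t).restrictScalars ℝ) (a := 0) (b := 1)
    hg.continuousOn (y := fun t => y t - C.U p q t (y 0)) (fun t ht => by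
      have h1 : HasDerivAt (fun t => C.U p q t (y 0)) ((C.w (ln p q t) (q - p) * C.U p q t) (y 0))
          t := by
        have h2 := (C.U_deriv h ht)
        have h3 : HasDerivAt (fun t => (ContinuousLinearMap.apply ℂ E (y 0)).restrictScalars ℝ
          (C.U p q t)) _ t := ((ContinuousLinearMap.apply ℂ E (y 0)).restrictScalars
            ℝ).hasFDerivAt.comp_hasDerivAt t h2
        exact h3
      have h4 := (hy t ht).sub h1.hasDerivWithinAt
      have e : (C.G p q t).restrictScalars ℝ (y t - C.U p q t (y 0)) =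
          C.w (ln p q t) (q - p) (y t) - (C.w (ln p q t) (q - p) * C.U p q t) (y 0) := by
        show C.G p q t (y t - C.U p q t (y 0)) = _
        rw [map_sub]
        unfold G
        rw [cl_eq ht]
        rfl
      rw [e]
      exact h4) (s := 0) ⟨le_rfl, zero_le_one⟩ (by simp [U_zero])
  exact sub_eq_zero.mp (key t ht)

/-- A flat section along a segment. -/
theorem flat_tr {y : P → E} {S : Set P} (hSX : S ⊆ C.X)
    (hy : ∀ q ∈ S, HasFDerivAt y ((ContinuousLinearMap.apply ℂ E (y q)).restrictScalars ℝ ∘L C.w q)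
      q) {p q : P} (h : segment ℝ p q ⊆ S) : y q = C.tr p q (y p) := by
  have h1 := C.sol_unique_vec (h.trans hSX) (y := fun t => y (ln p q t)) (t := 1) (fun t ht => by
    have h0 : HasDerivAt (ln p q) (q - p) t := by
      have h00 := ((hasDerivAt_id t).smul_const (q - p)).const_add p
      rw [one_smul] at h00
      exact h00
    have h2 := (hy (ln p q t) (h (ln_mem ht))).comp_hasDerivAt t h0
    exact h2.hasDerivWithinAt) ⟨zero_le_one, le_rfl⟩
  simp only [ln_one, ln_zero] at h1
  exact h1

end FlatConn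

/-- Solutions of `y' = N(z) y` along a segment. -/
theorem IsSol.tr_eq {X : Set ℂ} {hX : IsOpen X} {N : ℂ → E →L[ℂ] E}
    {hN : DifferentiableOn ℂ N X} {G : Set ℂ} (hGX : G ⊆ X) {y : ℂ → E}
    (hy : IsSol N G y) {p q : ℂ} (h : segment ℝ p q ⊆ G) :
    y q = (holConn X hX N hN).tr p q (y p) := by
  refine (holConn X hX N hN).flat_tr hGX (fun z hz => ?_) h
  have h1 := (hy z hz).hasFDerivAt.restrictScalars ℝ
  have e : (ContinuousLinearMap.apply ℂ E (y z)).restrictScalars ℝ ∘L
      (holConn X hX N hN).w z = (ContinuousLinearMap.toSpanSingleton ℂ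
        (N z (y z))).restrictScalars ℝ := by
    ext
    simp [holConn]
  rw [e]
  exact h1

/-- The transport is a solution on the star. -/
theorem tr_isSol {X : Set ℂ} {hX : IsOpen X} {N : ℂ → E →L[ℂ] E}
    {hN : DifferentiableOn ℂ N X} {G : Set ℂ} {p : ℂ}
    (hG : G ⊆ (holConn X hX N hN).star p) (y0 : E) :
    IsSol N G (fun z => (holConn X hX N hN).tr p z y0) := by
  intro z hz
  have h1 := (holConn_hasDerivAt (hG hz)).clm_apply (hasDerivAt_const z y0)
  simpa using h1

omit [CompleteSpace E] in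
theorem IsSol.mono {N : ℂ → E →L[ℂ] E} {G G' : Set ℂ} {y : ℂ → E} (h : IsSol N G y)
    (hG : G' ⊆ G) : IsSol N G' y := fun z hz => h z (hG hz)

omit [CompleteSpace E] in
theorem IsSol.congr {N : ℂ → E →L[ℂ] E} {G : Set ℂ} (hG : IsOpen G) {y y' : ℂ → E}
    (h : IsSol N G y) (he : EqOn y' y G) : IsSol N G y' := by
  intro z hz
  rw [he hz]
  refine (h z hz).congr_of_eventuallyEq ?_
  filter_upwards [hG.mem_nhds hz] with w hw using he hw

/-- Uniqueness on preconnected open sets. -/
theorem IsSol.unique {N : ℂ → E →L[ℂ] E} {G : Set ℂ} (hG : IsOpen G) (hGc : IsPreconnected G)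
    (hN : DifferentiableOn ℂ N G) {y y' : ℂ → E} (h : IsSol N G y) (h' : IsSol N G y') {p : ℂ}
    (hp : p ∈ G) (he : y p = y' p) : EqOn y y' G := by
  set u : Set ℂ := {z | z ∈ G ∧ y z = y' z} with hu
  have huo : IsOpen u := by
    rw [isOpen_iff_mem_nhds]
    rintro z ⟨hz, hzy⟩
    obtain ⟨r, hr, hrG⟩ := Metric.isOpen_iff.mp hG z hz
    filter_upwards [Metric.ball_mem_nhds z hr] with w hw
    have hs : segment ℝ z w ⊆ G :=
      ((convex_ball z r).segment_subset (mem_ball_self hr) hw).trans hrG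
    refine ⟨hrG hw, ?_⟩
    rw [h.tr_eq (hX := hG) (hN := hN) subset_rfl hs,
      h'.tr_eq (hX := hG) (hN := hN) subset_rfl hs, hzy]
  have hcl : closure u ∩ G ⊆ u := by
    rintro z ⟨hz, hzG⟩
    refine ⟨hzG, ?_⟩
    have hc : ContinuousAt (fun w => y w - y' w) z :=
      (h z hzG).continuousAt.sub (h' z hzG).continuousAt
    have h1 : y z - y' z ∈ closure ((fun w => y w - y' w) '' u) :=
      hc.continuousWithinAt.mem_closure_image hz
    have h2 : (fun w => y w - y' w) '' u ⊆ {0} := by
      rintro _ ⟨w, hw, rfl⟩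
      simp [hw.2]
    have h3 := closure_mono h2 h1
    rw [closure_singleton] at h3
    exact sub_eq_zero.mp h3
  have h4 := hGc.subset_of_closure_inter_subset huo ⟨p, hp, hp, he⟩ hcl
  exact fun z hz => (h4 hz).2

end Pool.Agent.QC.Ode
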